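import Pool.Agent.Lib.MP_4b554f_an.All.Deg

/-!
Arithmetic choices of the time shift.
-/

set_option autoImplicit false
set_option linter.unusedSimpArgs false
set_option linter.unnecessarySeqFocus false
set_option linter.unusedVariables false
set_option linter.unusedSectionVars false

namespace Pool.Agent.Lib.MP_4b554f_an.All

variable [Dim]

theorem crt {m n : ℤ} (h : IsCoprime m n) (a b : ℤ) : ∃ t, m ∣ t - a ∧ n ∣ t - b := by
  obtain ⟨x, y, hxy⟩ := h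
  refine ⟨a * (y * n) + b * (x * m), ⟨(b - a) * x, ?_⟩, ⟨(a - b) * y, ?_⟩⟩
  · linear_combination a * hxy
  · linear_combination b * hxy

theorem crt_fin {ι : Type*} (F : Finset ι) (m : ι → ℤ)
    (h : ∀ i j, i ≠ j → IsCoprime (m i) (m j)) (a : ι → ℤ) : ∃ t, ∀ i ∈ F, m i ∣ t - a i := by
  classical
  induction F using Finset.induction_on with
  | empty => exact ⟨0, by simp⟩
  | insert i F hi ih =>
    obtain ⟨t0, h0⟩ := ih
    obtain ⟨t, h1, h2⟩ := crt (m := m i) (n := ∏ j ∈ F, m j)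
      (IsCoprime.prod_right (fun j hj => h i j (fun e => hi (e ▸ hj)))) (a i) t0
    refine ⟨t, fun j hj => ?_⟩
    rcases Finset.mem_insert.1 hj with rfl | hj'
    · exact h1
    · simpa using dvd_add ((Finset.dvd_prod_of_mem m hj').trans h2) (h0 j hj')

theorem lin_solve {g m : ℤ} (h : IsCoprime g m) (a : ℤ) : ∃ c, m ∣ a + g * c - 3 := by
  obtain ⟨x, y, hxy⟩ := h
  exact ⟨(3 - a) * x, (a - 3) * y, by linear_combination (3 - a) * hxy⟩

theorem inert_ach {Γ : ℤ} {N : V} (hN : ∀ j, j ≠ 0 → N j ≠ 0)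
    (hg : ∀ j, j ≠ 0 → ∃ g, Γ = N j * g ∧ IsCoprime g (mm 1 j)) (a : V) :
    ∃ c, ∀ j, j ≠ 0 → ((a j + Γ * c) / N j) % mm 1 j = 3 := by
  have : ∀ j, ∃ c0, j ≠ 0 → ∀ c, mm 1 j ∣ c - c0 → ((a j + Γ * c) / N j) % mm 1 j = 3 := by
    intro j
    by_cases hj : j = 0
    · exact ⟨0, fun h => absurd hj h⟩
    · obtain ⟨g, h1, h2⟩ := hg j hj
      obtain ⟨c0, h3⟩ := lin_solve h2 (a j / N j)
      refine ⟨c0, fun _ c h4 => ?_⟩
      rw [h1, mul_assoc, Int.add_mul_ediv_left _ _ (hN j hj), ← three_mod hj]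
      apply Int.emod_eq_emod_iff_emod_sub_eq_zero.2 (Int.emod_eq_zero_of_dvd _)
      have := dvd_add h3 (h4.mul_left g)
      rwa [show ∀ x : ℤ, x + g * c0 - 3 + g * (c - c0) = x + g * c - 3 from fun x => by ring] at this
  choose c0 hc0 using this
  obtain ⟨c, hc⟩ := crt_fin Finset.univ (mm 1) (fun i j => mm1_cop) c0
  exact ⟨c, fun j hj => hc0 j hj _ (hc j (Finset.mem_univ j))⟩

theorem greedy_inert {ι : Type*} (F : Finset ι) (J : ι → ℕ → ℤ → Prop) (G : ℤ)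
    (ha : ∀ i ∈ F, ∀ k t c, J i k t → J i k (t + G * Q1 ^ (k + 2) * c)) (k0 : ℕ)
    (hb : ∀ i ∈ F, ∀ k t, ∃ c, J i k (t + G * Q1 ^ (k + 1) * c)) (t : ℤ) :
    ∃ c L, k0 ≤ L ∧ ∀ i ∈ F, ∃ k, k < L ∧ J i k (t + G * Q1 ^ (k0 + 1) * c) := by
  classical
  induction F using Finset.induction_on with
  | empty => exact ⟨0, k0, le_rfl, by simp⟩
  | insert i F hi ih =>
    obtain ⟨c, L, h1, h2⟩ := ih (fun j hj => ha j (Finset.mem_insert_of_mem hj))
      (fun j hj => hb j (Finset.mem_insert_of_mem hj))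
    obtain ⟨c', h3⟩ := hb i (Finset.mem_insert_self _ _) L (t + G * Q1 ^ (k0 + 1) * c)
    have e : t + G * Q1 ^ (k0 + 1) * (c + Q1 ^ (L - k0) * c') =
        t + G * Q1 ^ (k0 + 1) * c + G * Q1 ^ (L + 1) * c' := by
      rw [show L + 1 = k0 + 1 + (L - k0) by omega, pow_add _ (k0 + 1)]; ring
    refine ⟨c + Q1 ^ (L - k0) * c', L + 1, by omega, fun j hj => ?_⟩
    rw [e]
    rcases Finset.mem_insert.1 hj with rfl | hj'
    · exact ⟨L, by omega, h3⟩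
    · obtain ⟨k, h4, h5⟩ := h2 j hj'
      refine ⟨k, by omega, ?_⟩
      have := ha j hj k _ (Q1 ^ (L - 1 - k) * c') h5
      rwa [show G * Q1 ^ (k + 2) * (Q1 ^ (L - 1 - k) * c') = G * Q1 ^ (L + 1) * c' by
        rw [show L + 1 = k + 2 + (L - 1 - k) by omega, pow_add _ (k + 2)]; ring] at this

theorem pigeon {ι : Type*} (F : Finset ι) (Bd : ι → ℕ → Prop) (B : ℕ)
    (h1 : ∀ i ∈ F, ∀ a a', a < B → a' < B → Bd i a → Bd i a' → a = a') (h2 : F.card < B) :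
    ∃ a, ∀ i ∈ F, ¬ Bd i a := by
  classical
  have : (F.biUnion (fun i => (Finset.range B).filter (Bd i))).card ≤ F.card * 1 := by
    apply Finset.card_biUnion_le_card_mul
    intro i hi
    rw [Finset.card_le_one]
    intro a ha b hb
    rw [Finset.mem_filter, Finset.mem_range] at ha hb
    exact h1 i hi a b ha.1 hb.1 ha.2 hb.2
  obtain ⟨a, h3, h4⟩ := exists_avoid _ (lt_of_le_of_lt this (by omega : F.card * 1 < B))
  refine ⟨a, fun i hi h5 => h4 ?_⟩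
  exact Finset.mem_biUnion.2 ⟨i, hi, Finset.mem_filter.2 ⟨Finset.mem_range.2 h3, h5⟩⟩

theorem val_ev (a : ℕ → ℤ) {h : ℤ} (hh : ¬ (7 : ℤ) ∣ h)
    (ha : ∀ k k', k ≤ k' → (7 : ℤ) ^ (k + 1) ∣ a k' - a k) :
    ∃ k0, ∀ k, k0 ≤ k → ¬ (7 : ℤ) ^ (k + 1) ∣ a k - h * 7 ^ k := by
  by_cases h1 : ∃ k, (7 : ℤ) ^ (k + 1) ∣ a k - h * 7 ^ k
  · obtain ⟨k, hk⟩ := h1
    refine ⟨k + 1, fun k' h2 h3 => hh ?_⟩
    have h4 := (pow_dvd_pow 7 (show k + 1 ≤ k' + 1 by omega)).trans h3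
    have h5 : (7 : ℤ) ^ (k + 1) ∣ h * 7 ^ k' := (pow_dvd_pow 7 h2).mul_left h
    have h6 := dvd_sub (dvd_sub (dvd_add h4 h5) (ha k k' (by omega))) hk
    rw [show a k' - h * 7 ^ k' + h * 7 ^ k' - (a k' - a k) - (a k - h * 7 ^ k) = 7 ^ k * h by ring,
      pow_succ, mul_dvd_mul_iff_left (by positivity)] at h6
    exact h6
  · exact ⟨0, fun k _ h2 => h1 ⟨k, h2⟩⟩

theorem mod_HH {h M a : ℤ} (hh : 0 < h) (hM : 0 < M) :
    a % (h * M) = h * ((a / h) % M) + a % h := by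
  have h1 := Int.mul_ediv_add_emod a h
  have h2 := Int.emod_nonneg a hh.ne'
  have h3 := Int.emod_lt_of_pos a hh
  have h4 := Int.mul_ediv_add_emod (a / h) M
  have h5 := Int.emod_nonneg (a / h) hM.ne'
  have h6 := Int.emod_lt_of_pos (a / h) hM
  refine ((Int.ediv_emod_unique (q := a / h / M) (mul_pos hh hM)).2 ⟨?_, by positivity, ?_⟩).2
  · linear_combination h1 + h * h4
  · nlinarith

theorem copQQ {h : ℤ} (hh : h % QQ = 1) : IsCoprime h QQ :=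
  ⟨1, -(h / QQ), by have := Int.mul_ediv_add_emod h QQ; linarith⟩

theorem mm_cop {j : I} (hj : j ≠ 0) : ∃ g, Q1 = mm 1 j * g ∧ IsCoprime g (mm 1 j) := by
  refine ⟨∏ i ∈ Finset.univ.erase j, mm 1 i,
    (Finset.mul_prod_erase _ _ (Finset.mem_univ j)).symm, IsCoprime.prod_left (fun i hi => ?_)⟩
  exact mm1_cop (Finset.ne_of_mem_erase hi)

theorem mk_ne0 (h : ℤ) (k : ℕ) {j : I} (hj : j ≠ 0) : mk (mm 2) (mm h) k j = mm 1 j := by
  unfold mk; split_ifs <;> exact mm_ne0 _ _ hj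

theorem ach_M {h G : ℤ} (hh : 0 < h) (h1 : h ∣ G) (h2 : IsCoprime G Q1) (S : ℕ → V) (n : ℤ)
    (k : ℕ) (t : ℤ) : ∃ c, inert (dM h S k (cv (t + G * Q1 ^ (k + 1) * c + n))) := by
  obtain ⟨G', rfl⟩ := h1
  obtain ⟨c, hc⟩ := inert_ach (Γ := h * G' * Q1 ^ (k + 1)) (N := NN (mm 2) (mm h) (HH h) k)
    (fun j hj => by have := mm1_pos j; rw [NM_ne0 _ _ hj]; positivity) (fun j hj => by
      obtain ⟨g, h3, h4⟩ := mm_cop hj
      refine ⟨G' * g ^ (k + 1), by rw [NM_ne0 _ _ hj, h3]; ring, ?_⟩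
      exact (h2.of_mul_left_right.of_isCoprime_of_dvd_right (mm1_dvd j)).mul_left h4.pow_left)
    (fun j => t + n + S (k + 1) j)
  refine ⟨c, fun j hj => ?_⟩
  rw [← hc j hj]
  simp only [dM, dgt, cv, mk_ne0 _ _ hj]
  congr 2
  ring

theorem stab_M {h G : ℤ} (hh : 0 < h) (h1 : h ∣ G) (S : ℕ → V) (n : ℤ) (k : ℕ) (t c : ℤ)
    (hi : inert (dM h S k (cv (t + n)))) :
    inert (dM h S k (cv (t + G * Q1 ^ (k + 2) * c + n))) := by
  intro j hj
  rw [← hi j hj]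
  have := mm1_pos j
  apply dgt_inv (by rw [NM_ne0 _ _ hj]; positivity)
  rw [NM_ne0 _ _ hj]
  simp only [cv]
  rw [show t + G * Q1 ^ (k + 2) * c + n - (t + n) = G * Q1 ^ (k + 2) * c by ring]
  exact (mul_dvd_mul h1 (pow_dvd_pow_of_dvd (mm1_dvd j) _)).mul_right _

theorem ach_B0 {G : ℤ} (h2 : IsCoprime G Q1) (S : ℕ → V) (n : ℤ)
    (k : ℕ) (t : ℤ) : ∃ c, inert (dB S (k + 1) (cv (t + G * Q1 ^ (k + 1) * c + n))) := by
  obtain ⟨c, hc⟩ := inert_ach (Γ := G * Q1 ^ (k + 1)) (N := NN (mm 2) (mm 2) 1 (k + 1))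
    (fun j hj => by have := mm1_pos j; rw [NB_eq, mm_ne0 2 1 hj]; positivity) (fun j hj => by
      obtain ⟨g, h3, h4⟩ := mm_cop hj
      refine ⟨G * g ^ (k + 1), by rw [NB_eq, mm_ne0 2 1 hj, h3]; ring, ?_⟩
      exact (h2.of_isCoprime_of_dvd_right (mm1_dvd j)).mul_left h4.pow_left)
    (fun j => t + n + S (k + 1 + 1) j)
  refine ⟨c, fun j hj => ?_⟩
  rw [← hc j hj]
  simp only [dB, dgt, cv, mk_ne0 _ _ hj]
  congr 2
  ring

theorem stab_B0 (G : ℤ) (S : ℕ → V) (n : ℤ) (k : ℕ) (t c : ℤ)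
    (hi : inert (dB S (k + 1) (cv (t + n)))) :
    inert (dB S (k + 1) (cv (t + G * Q1 ^ (k + 2) * c + n))) := by
  intro j hj
  rw [← hi j hj]
  have := mm1_pos j
  apply dgt_inv (by rw [NB_eq, mm_ne0 2 1 hj]; positivity)
  rw [NB_eq, mm_ne0 2 1 hj]
  simp only [cv]
  rw [show t + G * Q1 ^ (k + 2) * c + n - (t + n) = G * Q1 ^ (k + 2) * c by ring]
  exact ((pow_dvd_pow_of_dvd (mm1_dvd j) _).mul_left G).mul_right _

theorem ach_B {G : ℤ} (h2 : IsCoprime G Q1) (S : ℕ → BV) (n : ℤ) (k : ℕ) (t : ℤ) :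
    ∃ c, inB S (k + 1) (t + G * Q1 ^ (k + 1) * c + n) := by
  obtain ⟨Q', h3, h4⟩ := Q1_split
  obtain ⟨c, hc⟩ := @ach_B0 D0 (G * Q' ^ (k + 1))
    ((h2.of_isCoprime_of_dvd_right (Dvd.intro _ h3.symm)).mul_left h4.pow_left) S n k t
  refine ⟨c, ?_⟩
  rw [h3, show G * (@Q1 D0 * Q') ^ (k + 1) = G * Q' ^ (k + 1) * @Q1 D0 ^ (k + 1) by ring]
  exact hc

theorem stab_B (G : ℤ) (S : ℕ → BV) (n : ℤ) (k : ℕ) (t c : ℤ) (hi : inB S (k + 1) (t + n)) :
    inB S (k + 1) (t + G * Q1 ^ (k + 2) * c + n) := by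
  obtain ⟨Q', h3, _⟩ := Q1_split
  rw [h3, show G * (@Q1 D0 * Q') ^ (k + 2) = G * Q' ^ (k + 2) * @Q1 D0 ^ (k + 2) by ring]
  exact @stab_B0 D0 _ S n k t c hi

theorem crt_target {l : ℤ} (hl : l % QQ = 1) (K : ℕ) (a : V) (ha : ∀ j, l ∣ a j - a 0) :
    ∃ t, ∀ j, NN (mm 2) (mm l) (HH l) (K + 1) j ∣ t - a j := by
  have c0 := copQQ hl
  have c1 : ∀ j, IsCoprime (2 * l ^ (K + 1)) (mm 1 j ^ (K + 2)) := by
    intro j
    apply IsCoprime.pow_right
    apply IsCoprime.of_isCoprime_of_dvd_right _ (mm1_dvd j)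
    exact IsCoprime.mul_left two_cop (c0.of_isCoprime_of_dvd_right Q1_dvd).pow_left
  obtain ⟨t3, ht⟩ := crt_fin Finset.univ
    (fun j : I => if j = 0 then 2 * l ^ (K + 1) else mm 1 j ^ (K + 2)) (fun i j hij => by
      by_cases hi : i = 0
      · have hj : j ≠ 0 := fun e => hij (hi.trans e.symm)
        simp only [if_pos hi, if_neg hj]
        exact c1 j
      · by_cases hj : j = 0
        · simp only [if_neg hi, if_pos hj]
          exact (c1 i).symm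
        · simp only [if_neg hi, if_neg hj]
          exact (mm1_cop hij).pow) a
  have e0 : 2 * l ^ (K + 1) ∣ t3 - a 0 := by simpa using ht 0 (Finset.mem_univ _)
  have e2 : ∀ j, j ≠ 0 → mm 1 j ^ (K + 2) ∣ t3 - a j := fun j hj => by
    simpa [hj] using ht j (Finset.mem_univ _)
  refine ⟨t3, fun j => ?_⟩
  by_cases hj : j = 0
  · subst hj; rw [NM_zero]; exact e0
  · rw [NM_ne0 _ _ hj]
    apply IsCoprime.mul_dvd _ _ (e2 j hj)
    · exact (c0.of_isCoprime_of_dvd_right ((mm1_dvd j).trans Q1_dvd)).pow_right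
    · have h1 : l ∣ t3 - a 0 := ((dvd_pow_self l (by omega)).mul_left 2).trans e0
      simpa using dvd_sub h1 (ha j)

theorem bad_gen {C : Conf} {S : ℕ → V} {l K L : ℕ} (hl : l.Prime) (hl11 : 11 < l)
    (hN : ND C l S) {W t : ℤ} (hW : ¬ (l : ℤ) ∣ W) (hW' : QQ ^ (L + 2) ∣ W)
    (hK : K + 1 ≤ L) {ξ : V} (h0 : ξ 0 = 0) (h1 : ∀ j, 0 ≤ ξ j ∧ ξ j < 5 * l)
    (ht : ∀ j, NN (mm 2) (mm l) (HH l) (K + 1) j ∣
      t + S (K + 1) j - (NN (mm 2) (mm l) (HH l) K j + ξ j))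
    (g : ℤ → Sy) (hg : ∀ n : ℤ, 0 ≤ n → n ≤ l →
      Thin l 10 (fun j => C.row (t + n + j * (l ^ (K + 1) * W)) = g n)) : Bad l g := by
  obtain ⟨h2, _, A, hA, hM, hH⟩ := hN
  have hh : (0 : ℤ) < l := by omega
  have hdi := fun τ => dM_inv (e := 1) (K := K + 1) (L := L) (u := 1) hl one_pos (by omega)
    (by simpa using hW') S τ
  have hHd := HH_dvd (l := l) (e := 1) (K := K + 1) (L := L) (u := 1) (by omega) (by simpa using hW')
  have hth := fun τ => thin_dig (e := 1) (K := K + 1) (L := L) (u := 1) hl one_pos (by omega) hW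
    (((pow_dvd_pow_of_dvd (by simpa using two_dvd) _).trans (pow_dvd_pow _ (by omega))).trans hW') S τ
  simp only [pow_one, mul_one, one_mul] at hdi hHd hth
  generalize (l : ℤ) ^ (K + 1) * W = Q at *
  have hp : ∀ n : ℤ, 0 ≤ n → n < l → ∀ j, (∀ k, k < K → dM l S k (cv (t + n)) j = 0) ∧
      dM l S K (cv (t + n)) j = 1 ∧ HH l j ∣ cv (t + n) j + S 0 j - (ξ j + n) := by
    intro n a1 a2 j
    have a3 := h1 j
    apply dig_of_pos (mm_ge le_rfl) (mm_ge h2) (HH_pos hh) hH.cmp (by omega)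
    · by_cases hj : j = 0
      · subst hj; simp [HH, h0, a2]
      · have : 7 ≤ mm 1 j := mm_seven 1 hj
        simp only [HH]; nlinarith
    · have := ht j
      rwa [show t + S (K + 1) j - (NN (mm 2) (mm l) (HH l) K j + ξ j) = cv (t + n) j +
        S (K + 1) j - (NN (mm 2) (mm l) (HH l) K j + (ξ j + n)) by simp [cv]; ring] at this
  have hm : ∀ (n a : ℤ) j, (cv (t + n + a * Q) j + S 0 j) % l = (ξ j + n) % l ∧
      ((cv (t + n + a * Q) j + S 0 j) / l) % mm 1 j = ((ξ j + n) / l) % mm 1 j := by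
    intro n a j
    have a1 := dvd_add (hp 0 le_rfl hh j).2.2 ((hHd j).mul_left a)
    rw [show cv (t + n + a * Q) j + S 0 j = ξ j + n +
      (cv (t + 0) j + S 0 j - (ξ j + 0) + a * Q) by simp [cv]; ring]
    exact mod_inv hh a1
  have hc : ∀ n : ℤ, 0 ≤ n → n < l → ∀ a : ℤ,
      cen (eff (A (idx (HH l) (S 0) (cv (t + n + a * Q))))) ∧
      ∀ j, (A (idx (HH l) (S 0) (cv (t + n + a * Q)))).rib j =
        some (dM l S (K + 1) (cv (t + n + a * Q))) := by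
    intro n a1 a2 a
    apply hH.cen2 _ K
    · intro k hk j
      have := hdi (t + n) a 0 (k := k) (by omega) j (Or.inr (by omega))
      rw [zero_mul, add_zero, (hp n a1 a2 j).1 k hk] at this
      exact this
    · intro j
      have := hdi (t + n) a 0 (k := K) (by omega) j (Or.inr (by omega))
      rw [zero_mul, add_zero, (hp n a1 a2 j).2.1] at this
      exact this
  have hx : ∀ n : ℤ, 0 ≤ n → n ≤ l → ∃ a : ℤ, (g n).m = physM l (S 0) A (cv (t + n + a * Q)) ∧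
      dM l S (K + 1) (cv (t + n + a * Q)) 0 ≠ n := by
    intro n a1 a2
    obtain ⟨j, a3, a4⟩ := thin_exists (thin_and (hg n a1 a2) (hth (t + n) {n})) (by simpa using hl11)
    refine ⟨j, by rw [← a3, ← hM]; rfl, ?_⟩
    simpa using a4 (K + 1) hK (by omega)
  refine ⟨?_, ?_, fun n a1 a2 => ?_, ?_, fun j => ?_, fun n a1 a2 => ?_⟩
  · obtain ⟨a, a3, _⟩ := hx 0 le_rfl hh.le
    simp only [a3, physM, hm, h0]; simp
  · obtain ⟨a, a3, _⟩ := hx l hh.le le_rfl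
    simp only [a3, physM, hm, h0]; simp
  · obtain ⟨a, a3, _⟩ := hx n a1.le a2.le
    simp only [a3, physM, hm, h0, zero_add]
    rw [Int.emod_eq_of_lt a1.le a2]
    omega
  · obtain ⟨a, a3, _⟩ := hx 0 le_rfl hh.le
    simp only [a3, physM, eff_clamp]
    exact (hc 0 le_rfl hh a).1
  · obtain ⟨a, a3, _⟩ := hx 0 le_rfl hh.le
    simp only [a3, physM, hm]
    rw [add_zero]
    have a4 := h1 j
    have a5 : ξ j / l < 5 := Int.ediv_lt_of_lt_mul hh a4.2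
    have a6 : 0 ≤ ξ j / l := Int.ediv_nonneg a4.1 hh.le
    have a7 := Int.mul_ediv_add_emod (ξ j / l) (mm 1 j)
    have a8 : 0 ≤ mm 1 j * (ξ j / l / mm 1 j) :=
      mul_nonneg (mm1_pos j).le (Int.ediv_nonneg a6 (mm1_pos j).le)
    omega
  · obtain ⟨a, a3, a4⟩ := hx n a1 a2.le
    simp only [a3, physM, hm, h0, zero_add, (hc n a1 a2 a).2]
    rintro ⟨_, D, _, a5, a6⟩
    simp only [Option.some.injEq] at a5
    rw [Int.emod_eq_of_lt a1 a2, ← a5] at a6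
    exact a4 a6

end Pool.Agent.Lib.MP_4b554f_an.All
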