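import Pool.Agent.Lib.MP_4b554f_an.All.Walls

/-!
Extraction of the abstract configuration from a physical one.
-/

set_option autoImplicit false
set_option linter.unusedSimpArgs false
set_option linter.unnecessarySeqFocus false
set_option linter.unusedVariables false
set_option linter.unusedSectionVars false

namespace Pool.Agent.Lib.MP_4b554f_an.All

variable [Dim]

theorem Mn.ext8 {c c' : Mn} (h1 : c.w = c'.w) (h2 : c.a = c'.a) (h3 : c.cnt = c'.cnt)
    (h4 : c.sc = c'.sc) (h5 : c.c = c'.c) (h6 : c.u1 ↔ c'.u1) (h7 : c.uo ↔ c'.uo)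
    (h8 : c.acc ↔ c'.acc) : c = c' := by
  cases c; cases c'; simp_all

theorem a_form {M : V → Mn} (hM : GM M) {h : ℤ} (hh : 0 < h) {o : V}
    (hw : ∀ x j, (M x).w j ↔ (x j + o j) % h = 0) (j : I) :
    ∀ (n : ℕ) (x : V), (x 0 + o 0) % h = n →
      ((M x).a j ↔ (x j + o j) % h ≤ (x 0 + o 0) % h) := by
  intro n
  induction n with
  | zero =>
    intro x hx
    have h0 := Int.emod_nonneg (x j + o j) hh.ne'
    by_cases h1 : (x j + o j) % h = 0
    · exact iff_of_true ((hM x).a1 j ((hw _ _).2 h1)) (by omega)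
    · exact iff_of_false ((hM x).a2 j (by rwa [hw]) (by rwa [hw])) (by omega)
  | succ n ih =>
    intro x hx
    by_cases h1 : (x j + o j) % h = 0
    · exact iff_of_true ((hM x).a1 j ((hw _ _).2 h1)) (by omega)
    · have h2 : (x 0 + o 0) % h ≠ 0 := by omega
      rw [(hM x).a3 j (by rwa [hw]) (by rwa [hw]), ih, sub_one_add, sub_one_add,
        (pred_in hh h1).2, (pred_in hh h2).2]
      · omega
      · rw [sub_one_add, (pred_in hh h2).2]; omega

theorem cnt_form {M : V → Mn} (hM : GM M) {h : ℤ} (hh : 0 < h) {o : V}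
    (hw : ∀ x j, (M x).w j ↔ (x j + o j) % h = 0) :
    ∀ (n : ℕ) (x : V), (x 0 + o 0) % h = n → (M x).cnt = ((x 0 + o 0) % h) % QQ := by
  intro n
  induction n with
  | zero =>
    intro x hx
    rw [(hM x).k1 (by rwa [hw]), hx]; simp
  | succ n ih =>
    intro x hx
    have h2 : (x 0 + o 0) % h ≠ 0 := by omega
    rw [(hM x).k2 (by rwa [hw]), ih, sub_one_add, (pred_in hh h2).2]
    · rw [cnt_step]
    · rw [sub_one_add, (pred_in hh h2).2]; omega

theorem sc_form {M : V → Mn} (hM : GM M) {h : ℤ} (hh : 0 < h) {o : V}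
    (hw : ∀ x j, (M x).w j ↔ (x j + o j) % h = 0) :
    ∃ o' : V, (∀ x j, (M x).w j ↔ (x j + o' j) % h = 0) ∧
      ∀ x j, (M x).sc j = ((x j + o' j) / h) % mm 1 j := by
  refine ⟨fun j => o j + (M (-o)).sc j * h, fun x j => ?_, fun x j => ?_⟩
  · rw [hw, ← add_assoc, Int.add_mul_emod_self_right]
  · have hc : ∀ U U' : V, U j = U' j → (M U).sc j = (M U').sc j := by
      intro U U' h
      apply const_of (fun U => (M U).sc j) (fun k => k ≠ j)
      · intro k hk U
        exact ((hM U).s1 j k hk).symm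
      · intro i hi
        have : i = j := by simpa using hi
        rw [this, h]
    have hs : ∀ U : V, mm 1 j ∣ (M U).sc j - (M (U - ee j)).sc j -
        ((U j + o j) / h - (U j + o j - 1) / h) := by
      intro U
      by_cases h1 : (U j + o j) % h = 0
      · rw [(hM U).s2 j (by rwa [hw]), (pred_out hh h1).1]
        have := Int.mul_ediv_add_emod ((M (U - ee j)).sc j + 1) (mm 1 j)
        exact ⟨-(((M (U - ee j)).sc j + 1) / mm 1 j), by linarith⟩
      · rw [(hM U).s3 j (by rwa [hw]), (pred_in hh h1).1]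
        simp
    have key : ∀ a : ℤ, mm 1 j ∣ (M (-o + a • ee j)).sc j - (a / h + (M (-o)).sc j) := by
      intro a
      induction a using Int.induction_on with
      | zero => simp
      | succ n ih =>
        have h1 := hs (-o + ((n : ℤ) + 1) • ee j)
        rw [show -o + ((n : ℤ) + 1) • ee j - ee j = -o + (n : ℤ) • ee j by
          rw [add_smul]; simp; abel,
          show (-o + ((n : ℤ) + 1) • ee j : V) j + o j = n + 1 by simp, add_sub_cancel_right] at h1
        have := dvd_add h1 ih
        exact dvd_trans (dvd_refl _) (by rwa [show ∀ a b c d e : ℤ, a - b - (c - d) + (b - (d + e)) =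
          a - (c + e) from fun a b c d e => by ring] at this)
      | pred n ih =>
        have h1 := hs (-o + (-(n : ℤ)) • ee j)
        rw [show -o + (-(n : ℤ)) • ee j - ee j = -o + (-(n : ℤ) - 1) • ee j by
          rw [sub_smul]; simp; abel,
          show (-o + (-(n : ℤ)) • ee j : V) j + o j = -n by simp] at h1
        have := dvd_sub ih h1
        exact dvd_trans (dvd_refl _) (by rwa [show ∀ a b c d e : ℤ, a - (c + e) - (a - b - (c - d)) =
          b - (d + e) from fun a b c d e => by ring] at this)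
    rw [hc x (-o + (x j + o j) • ee j) (by simp), ← add_assoc, Int.add_mul_ediv_right _ _ hh.ne']
    have h2 := (hM (-o + (x j + o j) • ee j)).s0 j
    exact eq_emod h2.1 h2.2 (key _)

theorem PP_mod (h : ℤ) (o U d : V) (j : I) :
    ((PP (HH h) o U + d : V) j + o j) % h = d j % h := by
  rw [show (PP (HH h) o U + d : V) j + o j = d j + h * (mm 1 j * U j) by simp [PP, HH]; ring,
    Int.add_mul_emod_self_left]

theorem PP_sc {h : ℤ} (hh : 0 < h) (o U d : V) (j : I) :
    (((PP (HH h) o U + d : V) j + o j) / h) % mm 1 j = (d j / h) % mm 1 j := by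
  rw [show (PP (HH h) o U + d : V) j + o j = d j + h * (mm 1 j * U j) by simp [PP, HH]; ring,
    Int.add_mul_ediv_left _ _ hh.ne', Int.add_mul_emod_self_left]

theorem rng_small {h : ℤ} {d : V} (hd : ∀ i, 0 ≤ d i ∧ d i < h) : rng (HH h) d := by
  intro i
  have h1 := hd i
  have h2 := mm1_pos i
  refine ⟨h1.1, ?_⟩
  simp only [HH]
  nlinarith

theorem upd_small {h r : ℤ} (hh : 0 < h) (h0 : 0 ≤ r) (h1 : r < h) (j : I) :
    ∀ i, 0 ≤ upd j r 0 i ∧ upd j r 0 i < h := by
  intro i; unfold upd; split_ifs <;> omega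

def lift (c : Cont) (L0 L1 : ℤ) : Cont :=
  { c with rib := fun j => (c.rib j).map (fun D => Function.update D 0 (if j = 0 then L0 else L1)) }

theorem lift_rib {c : Cont} {L0 L1 : ℤ} {j : I} {D : V} :
    (lift c L0 L1).rib j = some D ↔
      ∃ D', c.rib j = some D' ∧ Function.update D' 0 (if j = 0 then L0 else L1) = D := by
  simp [lift]

theorem lift_none {c : Cont} {L0 L1 : ℤ} {j : I} :
    (lift c L0 L1).rib j = none ↔ c.rib j = none := by simp [lift]

theorem eff_lift (c : Cont) (L0 L1 : ℤ) : eff (lift c L0 L1) = eff c := rfl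

theorem clamp_lift {c : Cont} (h : ∀ j D, c.rib j = some D → D 0 = 0) (L0 L1 : ℤ) :
    clamp (lift c L0 L1) = c := by
  refine Cont.ext4 (c := clamp (lift c L0 L1)) (c' := c) rfl rfl rfl ?_
  funext j
  simp only [clamp, lift]
  cases hr : c.rib j with
  | none => rfl
  | some D =>
    simp only [Option.map_some, Function.update_idem, Option.some.injEq]
    rw [← h j D hr, Function.update_eq_self]

theorem three_mod {j : I} (hj : j ≠ 0) : 3 % mm 1 j = 3 := by
  have := mm_seven 1 hj
  exact Int.emod_eq_of_lt (by norm_num) (by omega)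

theorem extract {C : Conf} (hC : C.ok) (h2 : Two C.M) :
    ∃ (h : ℤ) (o : V) (A : V → Cont), 2 ≤ h ∧ h % QQ = 1 ∧ Valid (mm 2) (mm h) A ∧
      C.M = physM h o A := by
  have hM := hC.gm
  obtain ⟨h, o0, h3, hw0⟩ := walls_per hM h2
  have hh : 0 < h := by omega
  obtain ⟨o, hw, hsc⟩ := sc_form hM hh hw0
  clear hw0
  generalize hMM : C.M = M at *
  have r0 : ∀ a : ℤ, 0 ≤ a % h := fun a => Int.emod_nonneg a hh.ne'
  have r1 : ∀ a : ℤ, a % h < h := fun a => Int.emod_lt_of_pos a hh
  have sm : ∀ r, 0 ≤ r → r < h → r % h = r ∧ r / h = 0 := fun r a b =>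
    ⟨Int.emod_eq_of_lt a b, Int.ediv_eq_zero_of_lt a b⟩
  have ha : ∀ x j, (M x).a j ↔ (x j + o j) % h ≤ (x 0 + o 0) % h := fun x j =>
    a_form hM hh hw j _ x (Int.toNat_of_nonneg (r0 _)).symm
  have hk : ∀ x, (M x).cnt = ((x 0 + o 0) % h) % QQ := fun x =>
    cnt_form hM hh hw _ x (Int.toNat_of_nonneg (r0 _)).symm
  have hQQ : h % QQ = 1 := by
    have h4 := (hM (-o - ee 0)).k3 (by rw [hw]; simp)
    rw [hk, sub_ee_add, (pred_out hh (by simp)).2] at h4
    exact cnt_end.1 h4
  have hbig : ∀ x j, (M x).big j ↔ (x j + o j) % h = 0 ∧ ((x j + o j) / h) % mm 1 j = 0 := by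
    intro x j; rw [Mn.big, hw, hsc]
  have hcc : ∀ x x', idx (HH h) o x = idx (HH h) o x' → (M x).c = (M x').c := by
    intro x x' h4
    apply box_const hh o (fun x => (M x).c) (fun _ => True) _ x x' h4 (by simp)
    intro j _ x hb
    exact ((hM x).c1 j (by rwa [hbig])).symm
  have hu1c : ∀ x x', idx (HH h) o x = idx (HH h) o x' → x 0 = x' 0 → ((M x).u1 ↔ (M x').u1) := by
    intro x x' h4 h5
    apply Eq.to_iff
    apply box_const hh o (fun x => (M x).u1) (fun j => j ≠ 0) _ x x' h4
    · intro j hj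
      have : j = 0 := by simpa using hj
      rw [this, h5]
    · intro j hj x hb
      exact propext ((hM x).l1 j hj (Or.inl (by rwa [hbig]))).symm
  have huoc : ∀ x x', idx (HH h) o x = idx (HH h) o x' → x 1 = x' 1 → ((M x).uo ↔ (M x').uo) := by
    intro x x' h4 h5
    apply Eq.to_iff
    apply box_const hh o (fun x => (M x).uo) (fun j => j ≠ 1) _ x x' h4
    · intro j hj
      have : j = 1 := by simpa using hj
      rw [this, h5]
    · intro j hj x hb
      exact propext ((hM x).o1 j hj (Or.inl (by rwa [hbig]))).symm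
  have uq : ∀ (j : I) (u : V → Prop) (Y : V → BV → Prop), Ray j (fun x => (M x).w j) C.B u Y →
      ∀ U, ∃ L, 0 ≤ L ∧ L ≤ h ∧ ∀ r, 0 ≤ r → r < h → (u (PP (HH h) o U + upd j r 0) ↔ L = r) := by
    intro j u Y hY U
    apply pick _ h hh.le
    intro r r' h4 h5 h6 h7 h8
    have e : ∀ i, PP (HH h) o U + upd j r 0 + i • ee j = PP (HH h) o U + upd j (r + i) 0 := by
      intro i; funext k
      by_cases hk : k = j
      · subst hk; simp [upd]; ring
      · simp [upd, hk, ee_ne hk]
    apply ray_uniq hC.vb hY _ (r' - r) (by omega) h7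
    · rw [e]; simpa using h8
    · intro i h9 h10
      rw [e, hw, PP_mod]
      simp only [upd, if_true]
      rw [(sm _ (by omega) (by omega)).1]
      omega
  choose L1 hL1a hL1b hL1 using uq 0 _ _ (hMM ▸ hC.r1)
  choose L0 hL0a hL0b hL0 using uq 1 _ _ (hMM ▸ hC.ro)
  have hu1 : ∀ x, (M x).u1 ↔ L1 (idx (HH h) o x) = (x 0 + o 0) % h := by
    intro x
    rw [← hL1 _ _ (r0 _) (r1 _)]
    apply hu1c
    · rw [idx_PP _ _ (rng_small (upd_small hh (r0 _) (r1 _) 0))]
    · have := Int.mul_ediv_add_emod (x 0 + o 0) h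
      simp [PP, HH, idx, upd]
      linarith
  have huo : ∀ x, ((x 1 + o 1) / h) % mm 1 1 = 0 →
      ((M x).uo ↔ L0 (idx (HH h) o x) = (x 1 + o 1) % h) := by
    intro x hx
    rw [← hL0 _ _ (r0 _) (r1 _)]
    apply huoc
    · rw [idx_PP _ _ (rng_small (upd_small hh (r0 _) (r1 _) 1))]
    · have h4 := Int.mul_ediv_add_emod (x 1 + o 1) h
      have h5 := Int.mul_ediv_add_emod ((x 1 + o 1) / h) (mm 1 1)
      rw [hx, add_zero] at h5
      simp only [Pi.add_apply, PP, idx_HH hh, HH, upd, if_true]
      rw [mul_assoc, h5]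
      linarith
  have L_eq : ∀ a b : ℤ, 0 ≤ a → a ≤ h → 0 ≤ b → b ≤ h → (∀ r, 0 ≤ r → r < h → (a = r ↔ b = r)) →
      a = b := by
    intro a b h4 h5 h6 h7 h8
    have h9 := h8 a h4
    have h10 := h8 b h6
    omega
  have site : ∀ U d, (∀ i, 0 ≤ d i ∧ d i < h) → idx (HH h) o (PP (HH h) o U + d) = U ∧
      (∀ j, ((PP (HH h) o U + d : V) j + o j) % h = d j) ∧
      (∀ j, (((PP (HH h) o U + d : V) j + o j) / h) % mm 1 j = 0) := by
    intro U d hd
    refine ⟨idx_PP _ _ (rng_small hd), fun j => ?_, fun j => ?_⟩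
    · rw [PP_mod, (sm _ (hd j).1 (hd j).2).1]
    · rw [PP_sc hh, (sm _ (hd j).1 (hd j).2).2]; simp
  let cU : V → Cont := fun U => (M (PP (HH h) o U + 0)).c
  have z0 : ∀ i, 0 ≤ (0 : V) i ∧ (0 : V) i < h := fun i => ⟨le_rfl, hh⟩
  have hc : ∀ x, (M x).c = cU (idx (HH h) o x) := fun x => hcc _ _ (site _ 0 z0).1.symm
  have hacc : ∀ (n : ℕ) x, (x 0 + o 0) % h = n → ((M x).acc ↔ cen (eff (M x).c) ∧ (M x).on3 ∧
      L1 (idx (HH h) o x) ≤ (x 0 + o 0) % h) := by
    intro n
    induction n with
    | zero =>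
      intro x hx
      rw [(hM x).ac, hu1, hw]
      have := hL1a (idx (HH h) o x)
      refine and_congr_right (fun _ => and_congr_right (fun _ => ?_))
      simp only [hx, Nat.cast_zero, not_true, false_and, or_false]
      omega
    | succ n ih =>
      intro x hx
      have h4 : (x 0 + o 0) % h ≠ 0 := by omega
      rw [(hM x).ac, hu1, hw, ih _ (by rw [sub_ee_add, (pred_in hh h4).2]; omega),
        idx_in hh (fun hh => h4 hh.1), sub_ee_add, (pred_in hh h4).2,
        ← (hM x).c1 0 (by rw [hbig]; exact fun hh => h4 hh.1)]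
      refine and_congr_right (fun h5 => and_congr_right (fun h6 => ?_))
      have h7 : (M (x - ee 0)).on3 := by
        intro j hj
        rw [← (hM x).wc j 0 hj.symm, ← (hM x).s1 j 0 hj.symm]
        exact h6 j hj
      simp only [h4, h5, h7, not_false_iff, true_and]
      omega
  have hacc' := fun x => hacc _ x (Int.toNat_of_nonneg (r0 _)).symm
  have cen_lt : ∀ U, cen (eff (cU U)) → L1 U < h := by
    intro U h4
    have hd : rng (HH h) (upd 0 (h - 1) (3 * h)) := by
      intro i
      by_cases hi : i = 0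
      · subst hi
        simp only [upd, HH, if_true, mm_zero]
        omega
      · have := mm_seven 1 hi
        simp only [upd, HH, if_neg hi]
        constructor <;> nlinarith
    have h5 := idx_PP o U hd
    have h6 : ((PP (HH h) o U + upd 0 (h - 1) (3 * h) : V) 0 + o 0) % h = h - 1 := by
      rw [PP_mod]; simp only [upd, if_true]; exact (sm _ (by omega) (by omega)).1
    have h7 := (hM (PP (HH h) o U + upd 0 (h - 1) (3 * h))).ac2 (by rw [hc, h5]; exact h4) (by
      intro j hj
      rw [hw, hsc, PP_mod, PP_sc hh]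
      simp only [upd, if_neg hj]
      rw [Int.mul_ediv_cancel _ hh.ne']
      exact ⟨by simp, three_mod hj⟩) (by rw [hw, add_ee_add, succ_mod hh, h6])
    rw [hacc', h5, h6] at h7
    omega
  have cen_eq : ∀ U, cen (eff (cU U)) → L0 U = L1 U := by
    intro U h4
    apply L_eq _ _ (hL0a U) (hL0b U) (hL1a U) (hL1b U)
    intro r h5 h6
    obtain ⟨s1, s2, s3⟩ := site U (fun _ => r) (fun _ => ⟨h5, h6⟩)
    have h7 := (hM (PP (HH h) o U + fun _ => r)).ld (by rw [hc, s1]; exact h4) (by rw [hsc, s3])
      (by rw [ha, s2, s2]) (by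
        rw [hw, ha, s2, sub_ee_add, sub_ee_ne _ zero_ne, s2]
        by_cases h8 : r = 0
        · exact Or.inl h8
        · right; rw [(pred_in hh (by rw [s2]; exact h8)).2, s2]; omega)
    rwa [hu1, huo _ (s3 1), s1, s2, s2] at h7
  let A : V → Cont := fun U => lift (cU U) (L0 U) (L1 U)
  have hA : Valid (mm 2) (mm h) A := by
    intro U
    obtain ⟨s1, s2, s3⟩ := site U 0 z0
    have u : Un False (mm 2) (mm 1) (cU U) := (hM _).c0
    refine ⟨⟨u.rb, u.ed, u.e2, u.e3, u.f3, ?_, ?_, u.nz, ?_, ?_, ?_⟩, fun j => ?_⟩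
    · intro j h4 h5; exact lift_none.2 (u.r0 j h4 h5)
    · intro j h4 h5; exact u.r1 j h4 (lift_none.1 h5)
    · intro j D h4 i
      obtain ⟨D', h5, rfl⟩ := lift_rib.1 h4
      by_cases hi : i = 0
      · subst hi
        simp only [Function.update_self, mm_zero]
        split_ifs
        · exact ⟨hL0a U, hL0b U⟩
        · exact ⟨hL1a U, hL1b U⟩
      · rw [Function.update_of_ne hi, mm_ne0 h 1 hi]; exact u.rbd j D' h5 i
    · intro h4
      obtain ⟨D, h5, h6⟩ := u.ce h4
      refine ⟨Function.update D 0 (L1 U), fun i => ?_, fun j => lift_rib.2 ⟨D, h6 j, ?_⟩⟩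
      · by_cases hi : i = 0
        · subst hi
          simp only [Function.update_self, mm_zero]
          exact ⟨hL1a U, cen_lt U h4⟩
        · rw [Function.update_of_ne hi, mm_ne0 h 1 hi]; exact h5 i
      · rw [cen_eq U h4]; simp
    · intro i j E _ h4 h5 h6
      obtain ⟨D', h7, rfl⟩ := lift_rib.1 h6
      by_cases hi : i = 0
      · subst hi
        have h8 := (hM (PP (HH h) o U + 0)).lf0 j h4 h5 (by rw [hsc, s3]) (by rw [hw, s2]; rfl)
        rw [huo _ (s3 1), s1, s2] at h8
        obtain ⟨t1, t2, t3⟩ := site U (fun _ => h - 1) (fun _ => ⟨by omega, by omega⟩)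
        have h9 := (hM (PP (HH h) o U + fun _ => h - 1)).lf1 j (by rw [hc, t1]; exact h4)
          (by rw [hc, t1]; exact h5) (by rw [hsc, t3]) (by rw [hw, add_ee_add, succ_mod hh, t2])
        rw [huo _ (t3 1), hc, t1, t2] at h9
        show (cU U).f j = _
        change (cU U).f j = 1 ↔ L0 U = 0 at h8
        simp only [scl, Function.update_self, if_true, mm_zero]
        split_ifs with h10 h11
        · exact h9.2 h10
        · exact h8.2 h11
        · have h12 := mt h9.1 h10
          have h13 := mt h8.1 h11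
          revert h12 h13
          generalize (cU U).f j = t
          revert t
          decide
      · have := u.f2 i j D' (Or.inl hi) h4 h5 h7
        simp only [scl, Function.update_of_ne hi, mm_ne0 h 1 hi] at this ⊢
        exact this
    · have hb : ∀ d : V, (∀ i, 0 ≤ d i ∧ d i < h) → d j = 0 →
          (M (PP (HH h) o U + d)).big j ∧ idx (HH h) o (PP (HH h) o U + d - ee j) = U - ee j := by
        intro d hd h4
        obtain ⟨t1, t2, t3⟩ := site U d hd
        have h5 := And.intro ((t2 j).trans h4) (t3 j)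
        exact ⟨(hbig _ _).2 h5, by rw [idx_out hh h5, t1]⟩
      have B := (hM (PP (HH h) o U + 0)).c2 j (hb 0 z0 rfl).1
      beta_reduce at B
      rw [hc (PP (HH h) o U + 0 - ee j), (hb 0 z0 rfl).2] at B
      have e1 : j ≠ 0 → (cU (U - ee j)).rib j ≠ none → L1 U = L1 (U - ee j) := by
        intro hj h4
        apply L_eq _ _ (hL1a _) (hL1b _) (hL1a _) (hL1b _)
        intro r h5 h6
        have h7 := upd_small hh h5 h6 0
        obtain ⟨t1, t2, t3⟩ := site U _ h7
        obtain ⟨t4, t5⟩ := hb _ h7 (by simp [upd, hj])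
        have h8 := (hM (PP (HH h) o U + upd 0 r 0)).l1 j hj (Or.inr (by
          rw [hc, t5]; exact h4))
        beta_reduce at h8
        rw [hu1, hu1, t1, t5, sub_ee_ne _ hj, t2] at h8
        simpa [upd] using h8
      refine ⟨B.sb, B.se, B.sf, fun h4 => ?_, fun h4 => ?_⟩
      · have h5 : (cU U).rib j = (cU (U - ee j)).rib j := B.sr h4
        simp only [A, lift, h5]
        by_cases h6 : (cU (U - ee j)).rib j = none
        · simp [h6]
        · by_cases hj : j = 0
          · subst hj
            have : L0 U = L0 (U - ee 0) := by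
              apply L_eq _ _ (hL0a _) (hL0b _) (hL0a _) (hL0b _)
              intro r h5 h6
              have h7 := upd_small hh h5 h6 1
              obtain ⟨t1, t2, t3⟩ := site U _ h7
              obtain ⟨t4, t5⟩ := hb _ h7 (by simp [upd])
              have h8 := (hM (PP (HH h) o U + upd 1 r 0)).o1 0 zero_ne (Or.inr ⟨rfl, by
                rw [hc, t1]; exact h4⟩)
              beta_reduce at h8
              rw [huo _ (t3 1), huo _ (by rw [sub_ee_ne _ zero_ne]; exact t3 1), t1, t5,
                sub_ee_ne _ zero_ne, t2] at h8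
              simpa [upd] using h8
            rw [this]; simp
          · simp only [if_neg hj, e1 hj h6]
      · obtain ⟨E, D, h5, h6, h7⟩ := B.sc h4
        refine ⟨_, _, lift_rib.2 ⟨E, h5, rfl⟩, lift_rib.2 ⟨D, h6, rfl⟩, fun i hi => ?_, ?_⟩
        · by_cases h0 : i = 0
          · subst h0
            simp only [Function.update_self, if_neg (Ne.symm hi)]
            exact e1 (Ne.symm hi) (by rw [h5]; simp)
          · rw [Function.update_of_ne h0, Function.update_of_ne h0]; exact h7.1 i hi
        · by_cases hj : j = 0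
          · subst hj
            simp only [Function.update_self, if_true, mm_zero]
            have h8 : ∀ r, 1 ≤ r → r < h → (L0 U = r ↔ L0 (U - ee 0) = r - 1) := by
              intro r h9 h10
              have h11 := upd_small hh (by omega) h10 1
              obtain ⟨t1, t2, t3⟩ := site U _ h11
              obtain ⟨t4, t5⟩ := hb _ h11 (by simp [upd])
              have t6 : ((PP (HH h) o U + upd 1 r 0 : V) 1 + o 1) % h ≠ 0 := by
                rw [t2]; simp [upd]; omega
              have h12 := (hM (PP (HH h) o U + upd 1 r 0)).o2 t4 (by rw [hc, t1]; exact h4)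
                (by rw [hsc, t3]) (by rw [hw]; exact t6)
              have t7 : (PP (HH h) o U + upd 1 r 0 - ee 0 - ee 1 : V) 1 + o 1 =
                  (PP (HH h) o U + upd 1 r 0 : V) 1 + o 1 - 1 := by
                rw [sub_ee_add, sub_ee_ne _ zero_ne]
              rw [huo _ (t3 1), huo _ (by rw [t7, (pred_in hh t6).1]; exact t3 1), t1,
                idx_in hh (by rw [sub_ee_ne _ zero_ne]; exact fun hh => t6 hh.1), t5, t7,
                (pred_in hh t6).2, t2] at h12
              simpa [upd] using h12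
            have h9 := cen_lt U h4
            rw [← cen_eq U h4] at h9
            have h10 := hL0a U
            have h11 := hL0a (U - ee 0)
            have h12 := h8 (L0 U)
            have h13 := h8 (L0 (U - ee 0) + 1)
            omega
          · rw [Function.update_of_ne hj, Function.update_of_ne hj, mm_ne0 h 1 hj]; exact h7.2
  refine ⟨h, o, A, h3, hQQ, hA, funext (fun x => ?_)⟩
  have c3 : ∀ U j D, (cU U).rib j = some D → D 0 = 0 := fun U => (hM _).c3
  apply Mn.ext8
  · funext j; exact propext (hw x j)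
  · funext j; exact propext (ha x j)
  · exact hk x
  · funext j; exact hsc x j
  · rw [hc]; exact (clamp_lift (c3 _) _ _).symm
  · constructor
    · intro h4
      obtain ⟨j, h5, h6⟩ := (hM x).l2 h4
      rw [hc] at h6
      obtain ⟨D, h7⟩ := Option.ne_none_iff_exists'.1 h6
      exact ⟨j, _, h5, lift_rib.2 ⟨D, h7, rfl⟩, by simpa [h5] using (hu1 x).1 h4⟩
    · rintro ⟨j, D, h5, h6, h7⟩
      obtain ⟨D', _, rfl⟩ := lift_rib.1 h6
      rw [hu1]; simpa [h5] using h7
  · constructor
    · intro h4
      obtain ⟨h6, h5⟩ := (hM x).o3 h4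
      rw [hc] at h6
      rw [hsc] at h5
      obtain ⟨D, h7⟩ := Option.ne_none_iff_exists'.1 h6
      exact ⟨h5, _, lift_rib.2 ⟨D, h7, rfl⟩, by simpa using (huo x h5).1 h4⟩
    · rintro ⟨h5, D, h6, h7⟩
      obtain ⟨D', _, rfl⟩ := lift_rib.1 h6
      rw [huo x h5]; simpa using h7
  · rw [hacc', hc]
    refine and_congr_right (fun h4 => and_congr ?_ ?_)
    · simp only [Mn.on3, hw, hsc]
    · obtain ⟨D, _, h6⟩ := (hM (PP (HH h) o (idx (HH h) o x) + 0)).c0.ce h4
      constructor
      · intro h5
        exact ⟨_, lift_rib.2 ⟨D, h6 0, rfl⟩, by simpa [cen_eq _ h4] using h5⟩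
      · rintro ⟨D', h7, h8⟩
        obtain ⟨D'', _, rfl⟩ := lift_rib.1 h7
        simpa [cen_eq _ h4] using h8

end Pool.Agent.Lib.MP_4b554f_an.All
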