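import Pool.Agent.Lib.MP_4b554f_an.All.Pack

/-!
The trace of the system of dimension `n + 6` is not a trace in dimension `n + 2`.
-/

set_option autoImplicit false
set_option linter.unusedSimpArgs false
set_option linter.unnecessarySeqFocus false
set_option linter.unusedVariables false
set_option linter.unusedSectionVars false

namespace Pool.Agent.Lib.MP_4b554f_an.All

variable [Dim]

theorem closed_of_dep {κ : Type} {n : ℕ} (T : Finset κ) (P : (κ → Fin n) → Prop)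
    (h : ∀ x x', (∀ u ∈ T, x u = x' u) → P x → P x') : IsClosed {x | P x} := by
  have e : {x | P x} = (fun (x : κ → Fin n) (u : T) => x u) ⁻¹'
      ((fun (x : κ → Fin n) (u : T) => x u) '' {x | P x}) := by
    ext x
    refine ⟨fun hx => ⟨x, hx, rfl⟩, ?_⟩
    rintro ⟨x', h1, h2⟩
    exact h x' x (fun u hu => congrFun h2 ⟨u, hu⟩) h1
  rw [e]
  exact (isClosed_discrete _).preimage (continuous_pi (fun u => continuous_apply _))

theorem bad_congr {l : ℕ} {y y' : ℤ → Sy} (h : ∀ n : ℤ, 0 ≤ n → n ≤ l → y n = y' n)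
    (hb : Bad l y) : Bad l y' := by
  obtain ⟨b1, b2, b3, b4, b5, b6⟩ := hb
  have h0 := h 0 le_rfl (by omega)
  refine ⟨h0 ▸ b1, h l (by omega) le_rfl ▸ b2, fun n a b => ?_, h0 ▸ b4, h0 ▸ b5, fun n a b => ?_⟩
  · rw [← h n a.le b.le]; exact b3 n a b
  · rw [← h n a b.le]; exact b6 n a b

theorem rowok_of {l : ℕ} (hl : l.Prime) {C : Conf} (hC : C.ok) {h : ℤ} {S : ℕ → V}
    (hd : ND C h S ∨ (¬ Two C.M ∧ h = 1 ∧ S = 0)) : ∃ SB u e, RowOK l C SB S h u e := by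
  obtain ⟨SB, hB⟩ := exists_BG hC
  have hh : 0 < h ∧ h % QQ = 1 := by
    rcases hd with h1 | h1
    · exact ⟨by have := h1.1; omega, h1.2.1⟩
    · rw [h1.2.1]; exact ⟨one_pos, one_mod⟩
  obtain ⟨e, u, h1, h2⟩ := Nat.exists_eq_pow_mul_and_not_dvd (n := h.toNat) (by omega) l hl.ne_one
  have h3 : h = l ^ e * u := by
    have : ((h.toNat : ℕ) : ℤ) = ((l ^ e * u : ℕ) : ℤ) := by rw [h2]
    rw [Int.toNat_of_nonneg hh.1.le] at this
    exact_mod_cast this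
  refine ⟨SB, u, e, hC, hB, hd.imp id (fun h => ⟨h.1, h.2.1⟩), ?_, h3, ?_, ?_, hh.2⟩
  · rcases hd with h4 | h4
    · obtain ⟨_, _, _, _, _, h5⟩ := h4
      exact h5.cmp
    · rw [h4.2.2]; simp
  · rcases Nat.eq_zero_or_pos u with h4 | h4
    · rw [h4] at h1; simp at h1
    · exact_mod_cast h4
  · exact_mod_cast h1

/-- A point of the lower-dimensional lattice from its time and its row. -/
def pt (i : ℤ) (q : RR) : Fin (Dim.n + 2) → ℤ := Fin.cons i q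

@[simp] theorem pt_zero (i : ℤ) (q : RR) : pt i q 0 = i := rfl
@[simp] theorem pt_succ (i : ℤ) (q : RR) (k : Fin (Dim.n + 1)) : pt i q k.succ = q k := rfl

theorem pt_add (i i' : ℤ) (q q' : RR) : pt i q + pt i' q' = pt (i + i') (q + q') := by
  funext k
  refine Fin.cases ?_ (fun k => ?_) k <;> simp

theorem ax3 (i : ℤ) : (fun j : Fin (Dim.n + 2) => if j.val = 0 then i else 0) = pt i 0 := by
  funext k
  refine Fin.cases ?_ (fun k => ?_) k <;> simp

def nrm (v : Fin (Dim.n + 2) → ℤ) : ℕ := ∑ i, (v i).natAbs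

theorem le_nrm (v : Fin (Dim.n + 2) → ℤ) (i : Fin (Dim.n + 2)) : |v i| ≤ nrm v := by
  have : (v i).natAbs ≤ nrm v :=
    Finset.single_le_sum (f := fun i => (v i).natAbs) (fun _ _ => Nat.zero_le _) (Finset.mem_univ i)
  rw [Int.abs_eq_natAbs]
  exact_mod_cast this

theorem compact3 {n : ℕ} (F : Finset (Fin (Dim.n + 2) → ℤ)) (P : Set ((Fin (Dim.n + 2) → ℤ) → Fin n))
    (B : ((Fin (Dim.n + 2) → ℤ) → Fin n) → Prop) (T : Finset (Fin (Dim.n + 2) → ℤ))
    (hB : ∀ x x', (∀ u ∈ T, x u = x' u) → B x → B x')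
    (h : ∀ x, (∀ v, ∃ p ∈ P, ∀ u ∈ F, x (v + u) = p u) → ¬ B x) :
    ∃ N : ℕ, ∀ x, (∀ v : Fin (Dim.n + 2) → ℤ, (∀ i, |v i| ≤ N) → ∃ p ∈ P, ∀ u ∈ F, x (v + u) = p u) →
      ¬ B x := by
  classical
  by_contra hc
  push Not at hc
  let t : ℕ → Set ((Fin (Dim.n + 2) → ℤ) → Fin n) := fun N =>
    (⋂ v : Fin (Dim.n + 2) → ℤ, {x | (∀ i, |v i| ≤ N) → ∃ p ∈ P, ∀ u ∈ F, x (v + u) = p u}) ∩ {x | B x}
  have cl : ∀ N, IsClosed (t N) := by
    intro N
    refine IsClosed.inter (isClosed_iInter (fun v => ?_)) (closed_of_dep T B hB)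
    apply closed_of_dep (F.image (fun u => v + u))
    intro a b hab h1 h2
    obtain ⟨p, h3, h4⟩ := h1 h2
    exact ⟨p, h3, fun u hu => by rw [← hab _ (Finset.mem_image_of_mem _ hu), h4 u hu]⟩
  obtain ⟨x, hx⟩ := IsCompact.nonempty_iInter_of_sequence_nonempty_isCompact_isClosed t
    (fun N a ha => ⟨Set.mem_iInter.2 (fun v hv => Set.mem_iInter.1 ha.1 v
      (fun i => by have := hv i; push_cast; omega)), ha.2⟩)
    (fun N => by
      obtain ⟨x, h1, h2⟩ := hc N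
      exact ⟨x, Set.mem_iInter.2 h1, h2⟩) (cl 0).isCompact cl
  rw [Set.mem_iInter] at hx
  exact h x (fun v => Set.mem_iInter.1 (hx (nrm v)).1 v (le_nrm v)) (hx 0).2

theorem not_three {n : ℕ} {ι : Fin n → Sy} (hι : Function.Injective ι)
    (F : Finset (Fin (Dim.n + 2) → ℤ)) (P : Set ((Fin (Dim.n + 2) → ℤ) → Fin n))
    (H : ∀ y : ℤ → Fin n, (∃ C : Conf, C.ok ∧ ∀ i, ι (y i) = C.row i) ↔
      ∃ x : (Fin (Dim.n + 2) → ℤ) → Fin n, (∀ v : Fin (Dim.n + 2) → ℤ, ∃ p ∈ P, ∀ u ∈ F, x (v + u) = p u) ∧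
        ∀ i : ℤ, y i = x (pt i 0))
    (hs : ∀ C : Conf, C.ok → ∀ i, ∃ a, ι a = C.row i) : False := by
  classical
  obtain ⟨l, hl, hl1, hl2⟩ := Nat.exists_prime_gt_modEq_one (k := QQ.toNat) (F.card * 10 + 11)
    (by have := QQ_pos; omega)
  have hl3 : (l : ℤ) % QQ = 1 := by
    have h1 := Int.natCast_modEq_iff.2 hl2
    rw [Int.toNat_of_nonneg QQ_pos.le] at h1
    exact Eq.trans h1 one_mod
  obtain ⟨C0, c1, o, A, c2, c3⟩ := exists_conf (h := l) (by omega) hl3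
  obtain ⟨S0, c4⟩ := nd_of (by omega) hl3 c2 c3
  choose y0 hy0 using hs C0 c1
  obtain ⟨x, hx, hx0⟩ := (H y0).1 ⟨C0, c1, hy0⟩
  have rows : ∀ q : RR, ∃ C SB S h u e, RowOK l C SB S h u e ∧
      (∀ i, ι (x (pt i q)) = C.row i) ∧ (q = 0 → h = l) := by
    intro q
    by_cases hq : q = 0
    · subst hq
      obtain ⟨SB, u, e, h1⟩ := rowok_of hl c1 (Or.inl c4)
      exact ⟨C0, SB, S0, l, u, e, h1, fun i => by rw [← hy0, hx0], fun _ => rfl⟩
    · obtain ⟨C, h1, h2⟩ := (H (fun i => x (pt i q))).2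
        ⟨fun w => x (w + pt 0 q), fun v => by
          obtain ⟨p, h3, h4⟩ := hx (v + pt 0 q)
          exact ⟨p, h3, fun u hu => by rw [← h4 u hu, add_right_comm]⟩, fun i => by simp [pt_add]⟩
      by_cases h3 : Two C.M
      · obtain ⟨h, S, h4⟩ := exists_ND h1 h3
        obtain ⟨SB, u, e, h5⟩ := rowok_of hl h1 (Or.inl h4)
        exact ⟨C, SB, S, h, u, e, h5, h2, fun h => absurd h hq⟩
      · obtain ⟨SB, u, e, h5⟩ := rowok_of hl h1 (Or.inr ⟨h3, rfl, rfl⟩)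
        exact ⟨C, SB, 0, 1, u, e, h5, h2, fun h => absurd h hq⟩
  choose C SB S h u e hR hrow h0 using rows
  obtain ⟨N0, hN0⟩ := compact3 F P (fun x' => Bad l (fun i => ι (x' (pt i 0))))
    ((Finset.Icc (0 : ℤ) l).image (fun i => pt i 0))
    (fun a b hab => bad_congr (fun i h1 h2 => by
      rw [hab _ (Finset.mem_image_of_mem _ (Finset.mem_Icc.2 ⟨h1, h2⟩))]))
    (fun x' h1 h2 => by
      obtain ⟨C', h3, h4⟩ := (H (fun i => x' (pt i 0))).2 ⟨x', h1, fun _ => rfl⟩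
      exact no_bad h3 (l := l) (by omega) (bad_congr (fun i _ _ => h4 i) h2))
  obtain ⟨r, hr⟩ : ∃ r : ℕ, ∀ u ∈ F, ∀ i, |u i| ≤ r :=
    ⟨F.sup nrm, fun u hu i => (le_nrm u i).trans (by exact_mod_cast Finset.le_sup hu)⟩
  refine iter_contra hl (by omega) hl3 hR (h0 0 rfl) (N := N0 + r + l) (by omega) ?_
  intro p t Q g hg hb
  obtain ⟨x', hx'⟩ : ∃ x' : (Fin (Dim.n + 2) → ℤ) → Fin n, ∀ w a, ι a = g (p + Fin.tail w) (w 0) →
      x' w = a := by
    refine ⟨fun w => if h : ∃ a, ι a = g (p + Fin.tail w) (w 0) then h.choose else x w,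
      fun w a ha => ?_⟩
    have h1 : ∃ a, ι a = g (p + Fin.tail w) (w 0) := ⟨a, ha⟩
    simp only [dif_pos h1]
    exact hι (h1.choose_spec.trans ha.symm)
  have th : ∀ w : Fin (Dim.n + 2) → ℤ, (∀ i, |w i| ≤ (N0 + r + l : ℕ)) → Thin l 10
      (fun j => ι (x (pt (t + w 0 + j * Q) (p + Fin.tail w))) = g (p + Fin.tail w) (w 0)) := by
    intro w hw
    refine thin_mono (hg (p + Fin.tail w) (by
      rw [mem_nb]
      intro i
      have h1 := abs_le.1 (hw i.succ)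
      simp only [Pi.add_apply, Fin.tail]
      omega) (w 0) (hw 0))
      le_rfl (fun j hj => ?_)
    rw [← hj, ← hrow]
  apply hN0 x'
  · intro v hv
    obtain ⟨j, hj⟩ := thin_exists (thin_finset F _ (fun u hu => th (v + u) (fun i => by
      have h1 := abs_le.1 (hv i)
      have h2 := abs_le.1 (hr u hu i)
      rw [abs_le, Pi.add_apply]; push_cast; omega))) (by omega)
    obtain ⟨p', h1, h2⟩ := hx (v + pt (t + j * Q) p)
    refine ⟨p', h1, fun u hu => ?_⟩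
    rw [hx' _ _ (hj u hu), ← h2 u hu]
    congr 1
    funext i
    refine Fin.cases ?_ (fun k => ?_) i <;> simp [Fin.tail] <;> ring
  · refine bad_congr (fun i h1 h2 => ?_) hb
    obtain ⟨j, hj⟩ := thin_exists (th (pt i 0) (fun k => by
      rw [abs_le]; refine Fin.cases ?_ (fun k => ?_) k <;> simp <;> omega)) (by omega)
    rw [hx' _ _ hj, hj]
    congr 1
    funext k
    simp [Fin.tail]

theorem exists_sep : ∃ (n : ℕ) (Y : Set (ℤ → Fin n)),
    (∃ F : Finset (Fin DD → ℤ), ∃ P : Set ((Fin DD → ℤ) → Fin n),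
        Y = {y : ℤ → Fin n | ∃ x : (Fin DD → ℤ) → Fin n,
          (∀ v : Fin DD → ℤ, ∃ p ∈ P, ∀ u ∈ F, x (v + u) = p u) ∧
          ∀ i : ℤ, y i = x (fun j : Fin DD => if j.val = 0 then i else 0)}) ∧
    ¬ (∃ F : Finset (Fin (Dim.n + 2) → ℤ), ∃ P : Set ((Fin (Dim.n + 2) → ℤ) → Fin n),
        Y = {y : ℤ → Fin n | ∃ x : (Fin (Dim.n + 2) → ℤ) → Fin n,
          (∀ v : Fin (Dim.n + 2) → ℤ, ∃ p ∈ P, ∀ u ∈ F, x (v + u) = p u) ∧
          ∀ i : ℤ, y i = x (fun j : Fin (Dim.n + 2) => if j.val = 0 then i else 0)}) := by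
  obtain ⟨n, ι, F, P, h1, h4, h2⟩ := sftD
  refine ⟨n, _, ⟨F, P, rfl⟩, ?_⟩
  rintro ⟨F', P', h3⟩
  apply not_three h1 F' P'
  · intro y
    rw [← h2]
    have := Set.ext_iff.1 h3 y
    simp only [Set.mem_ofPred_eq, ax3] at this
    exact this
  · exact h4

end Pool.Agent.Lib.MP_4b554f_an.All
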