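import Pool.Agent.Lib.MP_4b554f_an.All.Iter

/-!
The system as a shift of finite type.
-/

set_option autoImplicit false
set_option linter.unusedSimpArgs false
set_option linter.unnecessarySeqFocus false
set_option linter.unusedVariables false
set_option linter.unusedSectionVars false

namespace Pool.Agent.Lib.MP_4b554f_an.All

variable [Dim]

/-- The local rule on symbols. -/
structure LocR (c : Sy) (n p : I → Sy) (b : @I D0 → Sy) (d q r0 r1 : Sy) : Prop where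
  mr : MR c.m (fun j => (n j).m) (fun j => (p j).m) d.m q.m
  mc : ∀ j, (b j).m = c.m
  gc : ∀ j, (n j).g = c.g
  un : @Un D0 True (@mm D0 2) (@mm D0 2) c.g
  bin : ∀ j, @Bin D0 (@mm D0 2) (@mm D0 2) j (b j).g c.g
  y1 : (c.y1 ↔ rb c.g ∧ ¬ c.m.w 0 ∧ ((cn c.g ∧ (n 0).m.u1) ∨
    (¬ cn c.g ∧ r0.y1))) ∧ ¬ (c.y1 ∧ c.m.u1)
  yo : (c.yo ↔ rb c.g ∧ ¬ c.m.w 1 ∧ ((cn c.g ∧ (n 1).m.uo) ∨
    (¬ cn c.g ∧ r1.yo))) ∧ ¬ (c.yo ∧ c.m.uo)

abbrev eb (j : @I D0) : BV := @ee D0 j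

def Loc (z : V × BV → Sy) : Prop :=
  LocR (z 0) (fun j => z (-ee j, 0)) (fun j => z (ee j, 0)) (fun j => z (0, -eb j)) (z (-1, 0))
    (z (-ee 0 - ee 1, 0)) (z (-ee 0, -e0)) (z (-ee 1, -e0))

def offs : Finset (V × BV) :=
  {0, (-1, 0), (-ee 0 - ee 1, 0), (-ee 0, -e0), (-ee 1, -e0)} ∪
    Finset.univ.image (fun j => (-ee j, 0)) ∪ Finset.univ.image (fun j => (ee j, 0)) ∪
    Finset.univ.image (fun j => (0, -eb j))

theorem loc_congr {z z' : V × BV → Sy} (h : ∀ u ∈ offs, z u = z' u) (hz : Loc z) : Loc z' := by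
  unfold Loc at *
  rw [← h 0 (by simp [offs]), ← h (-1, 0) (by simp [offs]), ← h (-ee 0 - ee 1, 0) (by simp [offs]),
    ← h (-ee 0, -e0) (by simp [offs]), ← h (-ee 1, -e0) (by simp [offs]),
    ← show (fun j => z (-ee j, 0)) = (fun j => z' (-ee j, 0)) from
      funext (fun j => h _ (by simp [offs])),
    ← show (fun j => z (ee j, 0)) = (fun j => z' (ee j, 0)) from
      funext (fun j => h _ (by simp [offs])),
    ← show (fun j => z (0, -eb j)) = (fun j => z' (0, -eb j)) from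
      funext (fun j => h _ (by simp [offs]))]
  exact hz

theorem loc_iff (z : V × BV → Sy) (x : V) (y : BV) : Loc (fun u => z ((x, y) + u)) ↔
    LocR (z (x, y)) (fun j => z (x - ee j, y)) (fun j => z (x + ee j, y)) (fun j => z (x, y - eb j))
      (z (x - 1, y)) (z (x - ee 0 - ee 1, y)) (z (x - ee 0, y - e0)) (z (x - ee 1, y - e0)) := by
  simp only [Loc, Prod.mk_add_mk, add_zero, sub_eq_add_neg, add_assoc]

theorem loc_of_ok {C : Conf} (hC : C.ok) (v : V × BV) : Loc (fun u => C.z (v + u)) := by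
  obtain ⟨x, y⟩ := v
  rw [loc_iff]
  exact ⟨hC.gm x, fun _ => rfl, fun _ => rfl, (hC.vb y).1, (hC.vb y).2, hC.r1 x y, hC.ro x y⟩

theorem ok_of_loc {z : V × BV → Sy} (hz : ∀ v, Loc (fun u => z (v + u))) :
    ∃ C : Conf, C.ok ∧ z = C.z := by
  have h := fun x y => (loc_iff z x y).1 (hz (x, y))
  have hm : ∀ x y, (z (x, 0)).m = (z (x, y)).m := fun x y =>
    @const_of D0 _ (fun y => (z (x, y)).m) (fun _ => True) (fun k _ U => (h x U).mc k) 0 y (by simp)
  have hg : ∀ x y, (z (0, y)).g = (z (x, y)).g := fun x y =>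
    const_of (fun x => (z (x, y)).g) (fun _ => True) (fun k _ U => (h U y).gc k) 0 x (by simp)
  refine ⟨⟨fun x => (z (x, 0)).m, fun y => (z (0, y)).g, fun x y => (z (x, y)).y1,
    fun x y => (z (x, y)).yo⟩, ⟨fun x => (h x 0).mr, fun y => ⟨(h 0 y).un, (h 0 y).bin⟩,
    fun x y => ?_, fun x y => ?_⟩, ?_⟩
  · simp only [hm _ y, hg x y]
    exact (h x y).y1
  · simp only [hm _ y, hg x y]
    exact (h x y).yo
  · funext v
    exact Sy.ext4 (hm v.1 v.2).symm (hg v.1 v.2).symm Iff.rfl Iff.rfl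

def bddV (D : V) : Prop := ∀ i, D i ∈ Set.Icc (0 : ℤ) QQ
def bddC (c : Cont) : Prop := bddV c.b ∧ ∀ j D, c.rib j = some D → bddV D
def bddS (s : Sy) : Prop := s.m.cnt ∈ Set.Icc (0 : ℤ) QQ ∧ bddV s.m.sc ∧ bddC s.m.c ∧ @bddC D0 s.g

theorem finV : {D | bddV D}.Finite := Set.Finite.pi' (fun _ => Set.finite_Icc 0 QQ)

theorem finO : {o : Option V | ∀ D, o = some D → bddV D}.Finite := by
  apply ((finV.image some).insert none).subset
  intro o ho
  cases o with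
  | none => simp
  | some D => exact Or.inr ⟨D, ho D rfl, rfl⟩

theorem finC : {c | bddC c}.Finite := by
  have h1 := finV.prod ((Set.finite_univ (α := (I → I → Fin 3) × (I → Fin 3))).prod
    (Set.Finite.pi' (fun _ : I => finO)))
  refine (h1.preimage (f := fun c : Cont => (c.b, (c.e, c.f), c.rib)) ?_).subset ?_
  · intro c _ c' _ h
    simp only [Prod.mk.injEq] at h
    exact Cont.ext4 h.1 h.2.1.1 h.2.1.2 h.2.2
  · intro c hc
    exact ⟨hc.1, trivial, hc.2⟩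

theorem finS : {s | bddS s}.Finite := by
  have h1 := (Set.finite_Icc (0 : ℤ) QQ).prod (finV.prod (finC.prod ((@finC D0).prod
    (Set.finite_univ (α := (I → Prop) × (I → Prop) × Prop × Prop × Prop × Prop × Prop)))))
  refine (h1.preimage (f := fun s : Sy => (s.m.cnt, s.m.sc, s.m.c, s.g, s.m.w, s.m.a, s.m.u1,
    s.m.uo, s.m.acc, s.y1, s.yo)) ?_).subset ?_
  · intro c _ c' _ h
    simp only [Prod.mk.injEq] at h
    obtain ⟨a1, a2, a3, a4, a5, a6, a7, a8, a9, a10, a11⟩ := h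
    exact Sy.ext4 (Mn.ext8 a5 a6 a1 a2 a3 a7.to_iff a8.to_iff a9.to_iff) a4 a10.to_iff a11.to_iff
  · intro c hc
    exact ⟨hc.1, hc.2.1, hc.2.2.1, hc.2.2.2, trivial⟩

theorem mm_le {h : ℤ} (hh : h ≤ 2) (i : I) : mm h i ≤ QQ := by
  by_cases hi : i = 0
  · have := QQ_ge
    rw [hi, mm_zero]; omega
  · rw [mm_ne0 h 1 hi]
    exact Int.le_of_dvd QQ_pos ((mm1_dvd i).trans Q1_dvd)

theorem bddC_of {fl : Prop} {h : ℤ} (hh : h ≤ 2) {c : Cont} (u : Un fl (mm 2) (mm h) c) : bddC c :=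
  ⟨fun i => ⟨(u.rb i).1, (u.rb i).2.le.trans (mm_le le_rfl i)⟩,
    fun j D hD i => ⟨(u.rbd j D hD i).1, (u.rbd j D hD i).2.trans (mm_le hh i)⟩⟩

theorem bdd_of_loc {z : V × BV → Sy} (hz : Loc z) : bddS (z 0) :=
  ⟨⟨hz.mr.k0.1, hz.mr.k0.2.le⟩,
    fun i => ⟨(hz.mr.s0 i).1, (hz.mr.s0 i).2.le.trans (mm_le (by norm_num) i)⟩,
    bddC_of (by norm_num) hz.mr.c0, @bddC_of D0 _ _ le_rfl _ hz.un⟩

theorem pack {d : ℕ} {G α : Type} [AddCommGroup G] (φ : (Fin d → ℤ) ≃+ G) (Ω : Set α)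
    (hΩ : Ω.Finite) (T : Finset G) (L : (G → α) → Prop)
    (hloc : ∀ z z', (∀ u ∈ T, z u = z' u) → L z → L z') (hb : ∀ z, L z → z 0 ∈ Ω) :
    ∃ (n : ℕ) (ι : Fin n → α) (F : Finset (Fin d → ℤ)) (P : Set ((Fin d → ℤ) → Fin n)),
      Function.Injective ι ∧
      (∀ x : (Fin d → ℤ) → Fin n, (∀ v, ∃ p ∈ P, ∀ u ∈ F, x (v + u) = p u) ↔
        ∀ v, L (fun u => ι (x (φ.symm (v + u))))) ∧
      ∀ z : G → α, (∀ v, L (fun u => z (v + u))) →
        ∃ x : (Fin d → ℤ) → Fin n, ∀ v, ι (x (φ.symm v)) = z v := by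
  classical
  have : Finite Ω := hΩ
  obtain ⟨n, ⟨e⟩⟩ := Finite.exists_equiv_fin Ω
  refine ⟨n, fun a => (e.symm a).1, T.image φ.symm, {p | L (fun u => (e.symm (p (φ.symm u))).1)},
    Subtype.val_injective.comp e.symm.injective, fun x => ⟨fun h v => ?_, fun h v => ?_⟩,
    fun z hz => ?_⟩
  · obtain ⟨p, h1, h2⟩ := h (φ.symm v)
    refine hloc _ _ (fun u hu => ?_) h1
    rw [map_add, h2 _ (Finset.mem_image_of_mem _ hu)]
  · refine ⟨fun u => x (v + u), ?_, fun _ _ => rfl⟩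
    simpa using h (φ v)
  · refine ⟨fun w => e ⟨z (φ w), by simpa using hb _ (hz (φ w))⟩, fun v => ?_⟩
    simp

/-- The dimension of the big system. -/
abbrev DD : ℕ := Dim.n + 3 + 3

/-- The change of coordinates sending the first axis to the diagonal. -/
def phi : (Fin DD → ℤ) ≃+ V × BV where
  toFun := fun v => (fun j => if j = 0 then v (Fin.castAdd _ 0) else
      v (Fin.castAdd _ j) + v (Fin.castAdd _ 0), fun j => v (Fin.natAdd _ j) + v (Fin.castAdd _ 0))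
  invFun := fun w => Fin.addCases (fun j => if j = 0 then w.1 0 else w.1 j - w.1 0)
    (fun j => w.2 j - w.1 0)
  left_inv := fun v => by
    funext i
    refine Fin.addCases (fun j => ?_) (fun j => ?_) i
    · by_cases hj : j = 0 <;> simp [hj]
    · simp only [Fin.addCases_right, if_true, add_sub_cancel_right]
  right_inv := fun w => by
    apply Prod.ext <;> funext j
    · by_cases hj : j = 0 <;> simp [hj]
    · simp only [Fin.addCases_right, Fin.addCases_left, if_true, sub_add_cancel]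
  map_add' := fun v w => by
    apply Prod.ext <;> funext j
    · by_cases hj : j = 0
      · simp [hj]
      · simp only [Pi.add_apply, Prod.fst_add, if_neg hj]; ring
    · simp only [Pi.add_apply, Prod.snd_add]; ring

theorem phi_axis (i : ℤ) :
    phi.symm (cv i, cw i) = fun j : Fin DD => if j.val = 0 then i else 0 := by
  funext k
  show Fin.addCases (motive := fun _ => ℤ) (fun j : I => if j = 0 then i else i - i)
    (fun j : Fin 3 => i - i) k = _
  refine Fin.addCases (fun j => ?_) (fun j => ?_) k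
  · simp only [Fin.addCases_left, Fin.val_castAdd, sub_self, Fin.ext_iff, Fin.val_zero]
  · simp only [Fin.addCases_right, Fin.val_natAdd, sub_self]
    rw [if_neg (by omega)]

theorem sftD : ∃ (n : ℕ) (ι : Fin n → Sy) (F : Finset (Fin DD → ℤ)) (P : Set ((Fin DD → ℤ) → Fin n)),
    Function.Injective ι ∧ (∀ C : Conf, C.ok → ∀ i, ∃ a, ι a = C.row i) ∧
      ∀ y : ℤ → Fin n, (∃ x : (Fin DD → ℤ) → Fin n,
      (∀ v : Fin DD → ℤ, ∃ p ∈ P, ∀ u ∈ F, x (v + u) = p u) ∧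
      ∀ i : ℤ, y i = x (fun j : Fin DD => if j.val = 0 then i else 0)) ↔
      ∃ C : Conf, C.ok ∧ ∀ i, ι (y i) = C.row i := by
  obtain ⟨n, ι, F, P, h1, h2, h3⟩ := pack phi _ finS offs Loc (fun z z' => loc_congr)
    (fun z => bdd_of_loc)
  refine ⟨n, ι, F, P, h1, fun C hC i => ?_, fun y => ⟨?_, ?_⟩⟩
  · obtain ⟨x, h6⟩ := h3 C.z (loc_of_ok hC)
    exact ⟨_, h6 _⟩
  · rintro ⟨x, h4, h5⟩
    obtain ⟨C, h6, h7⟩ := ok_of_loc (z := fun v => ι (x (phi.symm v))) ((h2 x).1 h4)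
    refine ⟨C, h6, fun i => ?_⟩
    rw [Conf.row, ← h7, h5, ← phi_axis]
  · rintro ⟨C, h4, h5⟩
    obtain ⟨x, h6⟩ := h3 C.z (loc_of_ok h4)
    refine ⟨x, (h2 x).2 (fun v => ?_), fun i => h1 ?_⟩
    · simp only [h6]; exact loc_of_ok h4 v
    · rw [h5, ← phi_axis, h6]; rfl

end Pool.Agent.Lib.MP_4b554f_an.All
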