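import Pool.Agent.Lib.MP_4b554f_an.All.Desub

/-!
Towers of configurations, digits, rarity, and a canonical configuration.
-/

set_option autoImplicit false
set_option linter.unusedSimpArgs false
set_option linter.unnecessarySeqFocus false
set_option linter.unusedVariables false
set_option linter.unusedSectionVars false

namespace Pool.Agent.Lib.MP_4b554f_an.All

variable [Dim]

def inert (d : V) : Prop := ∀ j, j ≠ 0 → d j = 3

theorem ex_ne0 (i : I) : ∃ k, k ≠ i ∧ k ≠ 0 := ex_ne2 i 0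

theorem inert_ty {d : V} (h : inert d) {k : I} (hk : k ≠ 0) : ty d k = 2 := by
  simp [ty, h k hk, cl]

theorem inert_axs {d : V} (h : inert d) (j : I) : ¬ axs j (ty d) := by
  intro ha
  obtain ⟨k, h1, h2⟩ := ex_ne0 j
  have := ha k h1
  rw [inert_ty h h2] at this
  exact absurd this (by decide)

theorem inert_lin {d : V} (h : inert d) (j : I) : ¬ lin j (ty d) := by
  intro ha
  obtain ⟨k, h1, h2⟩ := ex_ne0 j
  have := ha k h1
  rw [inert_ty h h2] at this
  exact absurd this (by decide)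

theorem inert_zoo {d : V} (h : inert d) (j i : I) : ¬ zoo j i (ty d) := by
  intro ha
  by_cases hi : i = 0
  · obtain ⟨k, h1, h2⟩ := ex_ne0 j
    have := ha.2.2 k (hi ▸ h2) h1
    rw [inert_ty h h2] at this
    exact absurd this (by decide)
  · have := ha.2.1
    rw [inert_ty h hi] at this
    exact absurd this (by decide)

theorem inert_nz {d : V} (h : inert d) : ∃ k, d k ≠ 0 := ⟨1, by rw [h 1 one_ne]; decide⟩

theorem inert_pair {d : V} (h : inert d) {i k : I} (hik : i ≠ k) : d i ≠ 0 ∨ d k ≠ 0 := by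
  by_cases hi : i = 0
  · right; rw [h k (fun e => hik (hi.trans e.symm))]; decide
  · left; rw [h i hi]; decide

theorem inert_e {m' d : V} {C : Cont} (h : inert d) (i k : I) :
    (Psi m' d C).e i k = if i = k then 0 else cl (d i) := by
  split_ifs with hik
  · rw [hik, Psi_e_d]
  · exact Psi_e_nz hik (inert_pair h hik)

theorem inert_f {m' d : V} {C : Cont} (h : inert d) (j : I) : (Psi m' d C).f j = 0 :=
  Psi_f_oth (inert_axs h j) (inert_zoo h j)

theorem inert_r {m' d : V} {C : Cont} (h : inert d) (j : I) : (Psi m' d C).rib j = none :=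
  Psi_r_oth (inert_axs h j) (inert_lin h j)

theorem inert_indep {m' d : V} (h : inert d) (C C' : Cont) : Psi m' d C = Psi m' d C' := by
  apply Cont.ext4
  · rfl
  · funext i k; rw [inert_e h, inert_e h]
  · funext j; rw [inert_f h, inert_f h]
  · funext j; rw [inert_r h, inert_r h]

theorem un_inert {m m' d : V} {C : Cont} (h : inert d) (hd : rng m d) :
    Un True m m' (Psi m' d C) := by
  have he : eff (Psi m' d C) = ty d := Psi_eff_nz (inert_nz h)
  refine ⟨hd, Psi_e_d, ?_, ?_, ?_, ?_, ?_, ?_, ?_, ?_, ?_⟩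
  · intro i j hij hh
    exact Psi_e_nz hij (inert_pair h hij)
  · intro i j h1; rw [he] at h1; exact absurd h1 (inert_zoo h _ _)
  · intro j _ _; exact inert_f h j
  · intro j _ _; exact inert_r h j
  · intro j h1; rw [he] at h1; exact absurd h1 (inert_lin h _)
  · exact ⟨1, by rw [he, inert_ty h one_ne]; decide⟩
  · intro j D h1; rw [inert_r h] at h1; simp at h1
  · intro h1; rw [he] at h1; exact absurd (cen_lin h1 0) (inert_lin h _)
  · intro i j E _ h1; rw [he] at h1; exact absurd h1 (inert_zoo h _ _)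

theorem bin_inert {m m' d d' : V} {C C' : Cont} {j : I} (h : inert d) (h' : inert d')
    (hs : step m j d' d) : Bin m m' j (Psi m' d' C') (Psi m' d C) := by
  refine ⟨hs, ?_, ?_, ?_, ?_⟩
  · intro i k hi hk
    rw [inert_e h, inert_e h', hs.1 i hi]
  · rw [inert_f h, inert_f h']
  · intro _; rw [inert_r h, inert_r h']
  · intro h1; rw [Psi_eff_nz (inert_nz h)] at h1; exact absurd (cen_lin h1 0) (inert_lin h _)

/-- The primes from seven on. -/
noncomputable def pr (j : I) : ℕ := Nat.nth Nat.Prime (j.val + 2)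

theorem pr_prime (j : I) : (pr j).Prime := Nat.prime_nth_prime _

theorem pr_inj {i j : I} (h : pr i = pr j) : i = j := by
  have := Nat.nth_injective Nat.infinite_setOfPred_prime h
  exact Fin.ext (by omega)

theorem pr_one : pr 1 = 7 := by
  have : (1 : I).val = 1 := by simp
  rw [pr, this]
  exact Nat.nth_prime_three_eq_seven

theorem pr_ge {j : I} (hj : j ≠ 0) : 7 ≤ pr j := by
  have h1 : j.val ≠ 0 := fun h => hj (Fin.ext h)
  rw [← Nat.nth_prime_three_eq_seven]
  exact Nat.nth_monotone Nat.infinite_setOfPred_prime (by omega)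

/-- The moduli. -/
noncomputable def mm (h : ℤ) : V := fun j => if j = 0 then h else pr j

@[simp] theorem mm_zero (h : ℤ) : mm h 0 = h := by simp [mm]

theorem mm_pr (h : ℤ) {j : I} (hj : j ≠ 0) : mm h j = pr j := by simp [mm, hj]

theorem mm_seven (h : ℤ) {j : I} (hj : j ≠ 0) : 7 ≤ mm h j := by
  rw [mm_pr h hj]; exact_mod_cast pr_ge hj

theorem mm_one (h : ℤ) : mm h 1 = 7 := by rw [mm_pr h one_ne, pr_one]; rfl

theorem mm_ge {h : ℤ} (hh : 2 ≤ h) : ∀ i, 2 ≤ mm h i := by
  intro i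
  by_cases hi : i = 0
  · rw [hi, mm_zero]; exact hh
  · have := mm_seven h hi; omega

/-- The product of the constant moduli. -/
noncomputable def Q1 : ℤ := ∏ j, mm 1 j

/-- Twice the product of the constant moduli. -/
noncomputable def QQ : ℤ := 2 * Q1

theorem mm1_pos (j : I) : 0 < mm 1 j := by
  by_cases hj : j = 0
  · rw [hj, mm_zero]; norm_num
  · have := mm_seven 1 hj; omega

theorem mm1_dvd (j : I) : mm 1 j ∣ Q1 := Finset.dvd_prod_of_mem _ (Finset.mem_univ j)

theorem Q1_pos : 0 < Q1 := Finset.prod_pos (fun j _ => mm1_pos j)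

theorem seven_dvd : (7 : ℤ) ∣ Q1 := mm_one 1 ▸ mm1_dvd 1

theorem Q1_ge : 7 ≤ Q1 := Int.le_of_dvd Q1_pos seven_dvd

theorem QQ_ge : 14 ≤ QQ := by have := Q1_ge; unfold QQ; omega

theorem QQ_pos : 0 < QQ := by have := QQ_ge; omega

theorem Q1_dvd : Q1 ∣ QQ := Dvd.intro_left _ rfl

theorem two_dvd : (2 : ℤ) ∣ QQ := Dvd.intro _ rfl

theorem one_mod : 1 % QQ = 1 := Int.emod_eq_of_lt (by norm_num) (by have := QQ_ge; omega)

theorem cnt_step (a : ℤ) : ((a - 1) % QQ + 1) % QQ = a % QQ := by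
  rw [Int.emod_add_emod, sub_add_cancel]

theorem cnt_end {h : ℤ} : (h - 1) % QQ = 0 ↔ h % QQ = 1 := by
  constructor
  · intro h0
    rw [← cnt_step h, h0, zero_add, one_mod]
  · intro h0
    rw [Int.sub_emod, h0, one_mod]; simp

theorem zero_ne : (0 : I) ≠ 1 := one_ne.symm

theorem mm1_cop {i j : I} (h : i ≠ j) : IsCoprime (mm 1 i) (mm 1 j) := by
  by_cases hi : i = 0
  · rw [hi, mm_zero]; exact isCoprime_one_left
  · by_cases hj : j = 0
    · rw [hj, mm_zero]; exact isCoprime_one_right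
    · rw [mm_pr 1 hi, mm_pr 1 hj, Nat.isCoprime_iff_coprime]
      exact (Nat.coprime_primes (pr_prime i) (pr_prime j)).2 (fun e => h (pr_inj e))

theorem two_cop : IsCoprime (2 : ℤ) Q1 := by
  refine IsCoprime.prod_right (fun j _ => ?_)
  by_cases hj : j = 0
  · rw [hj, mm_zero]; exact isCoprime_one_right
  · rw [mm_pr 1 hj, show (2 : ℤ) = ((2 : ℕ) : ℤ) from rfl, Nat.isCoprime_iff_coprime]
    have := pr_ge hj
    exact (Nat.coprime_primes Nat.prime_two (pr_prime j)).2 (by omega)

def bet0 : V := fun j => if j = 0 then 0 else 3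

def mes (W : V) : ℕ := ∑ j ∈ Finset.univ.erase 0, (W j).natAbs

theorem mes_zero {W : V} : mes W = 0 ↔ ∀ j, j ≠ 0 → W j = 0 := by
  simp [mes, Finset.sum_eq_zero_iff]

theorem mes_inert (h : ℤ) {W : V} (hW : mes W = 0) : inert (dig (mm h) bet0 W) := by
  intro j hj
  have h1 := mm_seven h hj
  simp only [dig, bet0, if_neg hj, mes_zero.1 hW j hj, zero_add]
  exact Int.emod_eq_of_lt (by norm_num) (by omega)

theorem div_small {a m : ℤ} (hm : 7 ≤ m) :
    ((a + 3) / m).natAbs ≤ a.natAbs ∧ (a ≠ 0 → ((a + 3) / m).natAbs < a.natAbs) := by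
  have h1 := Int.mul_ediv_add_emod (a + 3) m
  have h2 := Int.emod_nonneg (a + 3) (show m ≠ 0 by omega)
  have h3 := Int.emod_lt_of_pos (a + 3) (show 0 < m by omega)
  generalize (a + 3) / m = q at *
  generalize (a + 3) % m = r at *
  rcases lt_trichotomy q 0 with hq | hq | hq
  · have : m * (q + 1) ≤ 7 * (q + 1) := by nlinarith
    have h4 : m * (q + 1) = m * q + m := by ring
    omega
  · subst hq; omega
  · have : 7 * q ≤ m * q := by nlinarith
    omega

theorem mes_idx (h : ℤ) (W : V) :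
    mes (idx (mm h) bet0 W) ≤ mes W ∧ (mes W ≠ 0 → mes (idx (mm h) bet0 W) < mes W) := by
  have key : ∀ j ∈ (Finset.univ : Finset I).erase 0,
      (idx (mm h) bet0 W j).natAbs ≤ (W j).natAbs ∧
      (W j ≠ 0 → (idx (mm h) bet0 W j).natAbs < (W j).natAbs) := by
    intro j hj
    have hj' := Finset.ne_of_mem_erase hj
    simp only [idx, bet0, if_neg hj']
    exact div_small (mm_seven h hj')
  refine ⟨Finset.sum_le_sum (fun j hj => (key j hj).1), fun h0 => ?_⟩
  rw [Ne, mes_zero] at h0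
  push Not at h0
  obtain ⟨j, h1, h2⟩ := h0
  have hj : j ∈ (Finset.univ : Finset I).erase 0 := Finset.mem_erase.2 ⟨h1, Finset.mem_univ j⟩
  exact Finset.sum_lt_sum (fun j hj => (key j hj).1) ⟨j, hj, (key j hj).2 h2⟩

noncomputable def canF (h : ℤ) : ℕ → V → Cont
  | 0, W => Psi (mm h) (dig (mm h) bet0 W) ⟨0, fun _ _ => 0, fun _ => 0, fun _ => none⟩
  | n + 1, W => Psi (mm h) (dig (mm h) bet0 W) (canF h n (idx (mm h) bet0 W))

theorem canF_stab (h : ℤ) : ∀ n W, mes W ≤ n → canF h (n + 1) W = canF h n W := by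
  intro n
  induction n with
  | zero => intro W hW; exact inert_indep (mes_inert h (by omega)) _ _
  | succ n ih =>
    intro W hW
    by_cases h0 : mes W = 0
    · exact inert_indep (mes_inert h h0) _ _
    · have := (mes_idx h W).2 h0
      show Psi _ _ (canF h (n + 1) _) = Psi _ _ (canF h n _)
      rw [ih _ (by omega)]

theorem canF_stab' (h : ℤ) (W : V) : ∀ n, mes W ≤ n → canF h n W = canF h (mes W) W := by
  intro n hn
  induction n, hn using Nat.le_induction with
  | base => rfl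
  | succ n hn ih => rw [canF_stab h n W hn, ih]

theorem exists_valid {h : ℤ} (hh : 2 ≤ h) : ∃ A, Valid (mm h) (mm h) A := by
  let A : V → Cont := fun W => canF h (mes W) W
  have hA : ∀ W, A W = Psi (mm h) (dig (mm h) bet0 W) (A (idx (mm h) bet0 W)) := by
    intro W
    show canF h (mes W) W = Psi _ _ (canF h (mes (idx (mm h) bet0 W)) _)
    rw [← canF_stab h _ W le_rfl, ← canF_stab' h _ (mes W) (mes_idx h W).1]
    rfl
  have hm := mm_ge hh
  have hb : ∀ W, rng (mm h) (A W).b := fun W => by rw [hA]; exact rng_dig hm _ _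
  have key : ∀ n W, mes W < n → Un True (mm h) (mm h) (A W) ∧
      ∀ j, Bin (mm h) (mm h) j (A (W - ee j)) (A W) := by
    intro n
    induction n with
    | zero => intro W hW; omega
    | succ n ih =>
      intro W hW
      by_cases h0 : mes W = 0
      · have hi := mes_inert h h0
        refine ⟨by rw [hA]; exact un_inert hi (rng_dig hm _ _), fun j => ?_⟩
        rw [hA W, hA (W - ee j)]
        by_cases hj : j = 0
        · subst hj
          apply bin_inert hi (mes_inert h (mes_zero.2 (fun i hi => by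
            simp [ee_ne hi, mes_zero.1 h0 i hi])))
          refine ⟨fun i hi => dig_sub_ee hi, ?_⟩
          by_cases hd : dig (mm h) bet0 W 0 = 0
          · exact Or.inr ⟨hd, (sub_ee_out (hm 0) hd).2.ge⟩
          · exact Or.inl (sub_ee_in (hm 0) hd).2
        · exact bin_Psi hm hb (fun hd => by rw [hi j hj] at hd; omega)
      · have h1 := ih _ (show mes (idx (mm h) bet0 W) < n by have := (mes_idx h W).2 h0; omega)
        refine ⟨by rw [hA]; exact un_Psi hm (rng_dig hm _ _) h1.1, fun j => ?_⟩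
        rw [hA W, hA (W - ee j)]
        exact bin_Psi hm hb (fun _ => h1.2 j)
  exact ⟨A, fun W => key _ W (Nat.lt_succ_self _)⟩

theorem exists_valid' {h : ℤ} (hh : 2 ≤ h) : ∃ A, Valid (mm 2) (mm h) A := by
  obtain ⟨A, hA⟩ := exists_valid hh
  exact ⟨_, valid_Psi (mm_ge le_rfl) (mm_ge hh) 0 hA⟩

theorem idx_PP {m d : V} (β W : V) (hd : rng m d) : idx m β (PP m β W + d) = W := by
  funext j
  simp only [PP, idx, Pi.add_apply]
  have h := hd j
  exact ((Int.ediv_emod_unique (r := d j) (by omega)).2 ⟨by ring, h.1, h.2⟩).1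

theorem rng_upd {m : V} (hm : ∀ i, 2 ≤ m i) {j : I} {a c : ℤ} (h1 : 0 ≤ a) (h2 : a < m j)
    (h3 : c = 0 ∨ c = 1) : rng m (upd j a c) := by
  intro i
  have := hm i
  unfold upd
  split_ifs with h
  · subst h; omega
  · omega

/-- Centres followed by long stretches of a ribbon. -/
theorem long {m : V} (hm : ∀ i, 2 ≤ m i) : ∀ (D : ℕ) (A : V → Cont), Valid m m A →
    ∃ B, cen (eff (A B)) ∧ ∀ i : ℕ, i ≤ D → (A (B + (i : ℤ) • ee 0)).rib 0 ≠ none ∧
      (1 ≤ i → ¬ cen (eff (A (B + (i : ℤ) • ee 0)))) := by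
  intro D
  induction D with
  | zero =>
    intro A hA
    obtain ⟨β, A', _, h2⟩ := desub hm hm hA
    have hr : rng m (upd 0 1 1) := rng_upd hm (by omega) (by have := hm 0; omega) (by simp)
    have hc : cen (eff (A (PP m β 0 + upd 0 1 1))) := by
      rw [h2, dig_PP _ _ hr, Psi_eff_nz ⟨0, by simp [upd]⟩]
      intro i; simp [ty, upd, cl]
    refine ⟨_, hc, fun i hi => ?_⟩
    have : i = 0 := by omega
    subst this
    simp only [Nat.cast_zero, zero_smul, add_zero]
    exact ⟨(hA _).1.r1 0 (cen_lin hc 0), by omega⟩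
  | succ D ih =>
    intro A hA
    obtain ⟨β, A', h1, h2⟩ := desub hm hm hA
    obtain ⟨B, h3, h4⟩ := ih A' h1
    have h0 := hm 0
    have hr0 : rng m (upd 0 0 0) := rng_upd hm (by omega) (by omega) (by simp)
    refine ⟨PP m β B + upd 0 0 0, ?_, fun i hi => ?_⟩
    · rw [h2, dig_PP _ _ hr0, idx_PP _ _ hr0, Psi_eff_z (by simp [upd])]
      exact h3
    · have a1 := Int.mul_ediv_add_emod (i : ℤ) (m 0)
      have a2 := Int.emod_nonneg (i : ℤ) (show m 0 ≠ 0 by omega)
      have a3 := Int.emod_lt_of_pos (i : ℤ) (show 0 < m 0 by omega)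
      have a4 : 0 ≤ (i : ℤ) / m 0 := Int.ediv_nonneg (by omega) (by omega)
      obtain ⟨q, hq⟩ := Int.eq_ofNat_of_zero_le a4
      have a5 : q ≤ D := by
        have : 2 * (q : ℤ) ≤ m 0 * q := by nlinarith
        rw [hq] at a1
        omega
      have hr : rng m (upd 0 (i % m 0) 0) := rng_upd hm a2 a3 (by simp)
      have e1 : PP m β B + upd 0 0 0 + (i : ℤ) • ee 0 =
          PP m β (B + (q : ℤ) • ee 0) + upd 0 (i % m 0) 0 := by
        funext k
        by_cases hk : k = 0
        · subst hk; simp [PP, upd]; rw [hq] at a1; linarith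
        · simp [PP, upd, hk, ee_ne hk]
      have ha : axs 0 (ty (upd 0 (i % m 0) 0)) := fun k hk => by simp [ty, upd, hk, cl]
      rw [e1, h2, dig_PP _ _ hr, idx_PP _ _ hr, Psi_r_axs ha]
      refine ⟨(h4 q a5).1, fun h5 => ?_⟩
      by_cases h6 : (i : ℤ) % m 0 = 0
      · rw [Psi_eff_z (by simp [upd, h6])]
        apply (h4 q a5).2
        rw [hq, h6] at a1
        by_contra h7
        have : q = 0 := by omega
        subst this
        simp at a1
        omega
      · rw [Psi_eff_nz ⟨0, by simpa [upd] using h6⟩]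
        intro hc
        exact lin_not_axs (cen_lin hc 0) ha

theorem back_step {m m' β : V} (hm : ∀ i, 2 ≤ m i) {A A' : V → Cont}
    (h2 : ∀ U, A U = Psi m' (dig m β U) (A' (idx m β U))) (U : V)
    (ih : (A' (idx m β U)).rib 0 ≠ none →
      ∃ i : ℕ, cen (eff (A' (idx m β U - (i : ℤ) • ee 0))))
    (h : (A U).rib 0 ≠ none) : ∃ i : ℕ, cen (eff (A (U - (i : ℤ) • ee 0))) := by
  have h0 := hm 0
  have hd := rng_dig hm β U 0
  have hU := PP_idx m β U
  rw [h2] at h
  by_cases ha : axs 0 (ty (dig m β U))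
  · rw [Psi_r_axs ha] at h
    obtain ⟨i, hi⟩ := ih h
    have hr0 : rng m (upd 0 0 0) := rng_upd hm (by omega) (by omega) (by simp)
    refine ⟨(dig m β U 0 + m 0 * i).toNat, ?_⟩
    have e1 : U - ((dig m β U 0 + m 0 * i).toNat : ℤ) • ee 0 =
        PP m β (idx m β U - (i : ℤ) • ee 0) + upd 0 0 0 := by
      rw [Int.toNat_of_nonneg (add_nonneg hd.1 (mul_nonneg (by omega) (by omega)))]
      funext k
      have := congrFun hU k
      by_cases hk : k = 0
      · subst hk; simp [PP, upd] at this ⊢; linarith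
      · have h3 := cl_eq_zero.1 (ha k hk)
        simp [PP, upd, hk, ee_ne hk, h3] at this ⊢; linarith
    rw [e1, h2, dig_PP _ _ hr0, idx_PP _ _ hr0, Psi_eff_z (by simp [upd])]
    exact hi
  · by_cases hl : lin 0 (ty (dig m β U))
    · have hr : rng m (upd 0 1 1) := rng_upd hm (by omega) (by omega) (by simp)
      refine ⟨(dig m β U 0 + m 0 - 1).toNat, ?_⟩
      have e1 : U - ((dig m β U 0 + m 0 - 1).toNat : ℤ) • ee 0 =
          PP m β (idx m β U - ee 0) + upd 0 1 1 := by
        rw [Int.toNat_of_nonneg (by omega)]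
        funext k
        have := congrFun hU k
        by_cases hk : k = 0
        · subst hk; simp [PP, upd] at this ⊢; linarith
        · have h3 := cl_eq_one.1 (hl k hk)
          simp [PP, upd, hk, ee_ne hk, h3] at this ⊢; linarith
      rw [e1, h2, dig_PP _ _ hr, Psi_eff_nz ⟨0, by simp [upd]⟩]
      intro i; simp [ty, upd, cl]
    · rw [Psi_r_oth ha hl] at h
      exact absurd rfl h

def gd (R : Finset ℤ) (a : ℤ) : Prop := a ≠ 0 ∧ a ≠ 1 ∧ a ∉ R ∧ a - 1 ∉ R

def relD (R : Finset ℤ) (d d' : V) : Prop :=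
  (∀ j, j ≠ 0 → d j = d' j) ∧ (d 0 = d' 0 ∨ (gd R (d 0) ∧ gd R (d' 0)))

def relL (R : Finset ℤ) (d d' : V) : Prop :=
  (∀ j, j ≠ 0 → d j = d' j) ∧ (d 0 = d' 0 ∨ (d 0 ∉ R ∧ d' 0 ∉ R))

/-- Two contents agree except for first digits outside `R`. -/
structure Rel (R : Finset ℤ) (c c' : Cont) : Prop where
  rb : relD R c.b c'.b
  re : c.e = c'.e
  rf : c.f = c'.f
  rr : ∀ j, (c.rib j = none ∧ c'.rib j = none) ∨
    ∃ D D', c.rib j = some D ∧ c'.rib j = some D' ∧ relL R D D'

theorem relD_ty {R : Finset ℤ} {d d' : V} (h : relD R d d') : ty d = ty d' := by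
  funext i
  unfold ty
  by_cases hi : i = 0
  · subst hi
    rcases h.2 with h1 | h1
    · rw [h1]
    · rw [cl_eq_two.2 ⟨h1.1.1, h1.1.2.1⟩, cl_eq_two.2 ⟨h1.2.1, h1.2.2.1⟩]
  · rw [h.1 i hi]

theorem relD_L {R : Finset ℤ} {d d' : V} (h : relD R d d') : relL R d d' :=
  ⟨h.1, h.2.imp id (fun h1 => ⟨h1.1.2.2.1, h1.2.2.2.1⟩)⟩

theorem relD_prd {R : Finset ℤ} {m d d' : V} (h : relD R d d') (j : I) :
    relL R (prd m j d) (prd m j d') := by
  by_cases hj : j = 0
  · subst hj
    refine ⟨fun i hi => by simp [prd, hi, h.1 i hi], ?_⟩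
    rcases h.2 with h1 | h1
    · left; simp [prd, h1]
    · right; simp [prd, h1.1.1, h1.2.1, h1.1.2.2.2, h1.2.2.2.2]
  · refine ⟨fun i hi => by simp [prd, h.1 i hi, h.1 j hj], ?_⟩
    simp only [prd, if_neg (Ne.symm hj)]
    exact (relD_L h).2

theorem rel_Psi {R : Finset ℤ} {m' d d' : V} {C C' : Cont} (h : relD R d d') (H : Rel R C C') :
    Rel R (Psi m' d C) (Psi m' d' C') := by
  have ht := relD_ty h
  have ht' : ∀ i, cl (d i) = cl (d' i) := fun i => congrFun ht i
  have hb : ∀ i, cl (C.b i) = cl (C'.b i) := fun i => congrFun (relD_ty H.rb) i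
  refine ⟨h, ?_, ?_, fun j => ?_⟩
  · funext i k
    exact Psi_e_congr (ht' i) (ht' k) (by rw [H.re])
  · funext j
    by_cases ha : axs j (ty d)
    · rw [Psi_f_axs ha, Psi_f_axs (ht ▸ ha), H.rf]
    · by_cases hz : ∃ i, zoo j i (ty d)
      · obtain ⟨i, hi⟩ := hz
        rw [Psi_f_zoo hi, Psi_f_zoo (ht ▸ hi), hb]
      · rw [Psi_f_oth ha (fun i hi => hz ⟨i, hi⟩),
          Psi_f_oth (ht ▸ ha) (fun i hi => hz ⟨i, ht ▸ hi⟩)]
  · by_cases ha : axs j (ty d)
    · rw [Psi_r_axs ha, Psi_r_axs (ht ▸ ha)]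
      exact H.rr j
    · by_cases hl : lin j (ty d)
      · right
        rw [Psi_r_lin hl, Psi_r_lin (ht ▸ hl)]
        refine ⟨_, _, rfl, rfl, ?_⟩
        by_cases h1 : d j = 0
        · rw [if_pos h1, if_pos (cl_eq_zero.1 (by rw [← ht', h1]; rfl))]
          exact relD_prd H.rb j
        · rw [if_neg h1, if_neg (fun h2 => h1 (cl_eq_zero.1 (by rw [ht', h2]; rfl)))]
          exact relD_L H.rb
      · left
        exact ⟨Psi_r_oth ha hl, Psi_r_oth (ht ▸ ha) (ht ▸ hl)⟩

theorem rel_inert {R : Finset ℤ} {m' d d' : V} {C C' : Cont} (h : relD R d d') (hi : inert d) :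
    Rel R (Psi m' d C) (Psi m' d' C') := by
  have hi' : inert d' := fun j hj => by rw [← h.1 j hj, hi j hj]
  refine ⟨h, ?_, ?_, fun j => Or.inl ⟨inert_r hi j, inert_r hi' j⟩⟩
  · funext i k
    rw [inert_e hi, inert_e hi', show cl (d i) = cl (d' i) from congrFun (relD_ty h) i]
  · funext j
    rw [inert_f hi, inert_f hi']

def mk (m m' : V) (k : ℕ) : V := if k = 0 then m else m'

def NN (m m' H : V) : ℕ → V
  | 0 => H
  | k + 1 => NN m m' H k * mk m m' k

def dgt (m m' H : V) (S : ℕ → V) (k : ℕ) (x : V) : V :=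
  fun j => ((x j + S (k + 1) j) / NN m m' H k j) % mk m m' k j

/-- The properties of the hierarchy used later, in terms of fine coordinates. -/
structure Hier (m m' H : V) (c : V → Cont) (S : ℕ → V) : Prop where
  cmp : ∀ k j, NN m m' H k j ∣ S (k + 1) j - S k j
  rare : ∀ R x x' L, (∀ k, k ≤ L → relD R (dgt m m' H S k x) (dgt m m' H S k x')) →
    inert (dgt m m' H S L x) → Rel R (c x) (c x')
  cen1 : ∀ x L, inert (dgt m m' H S L x) → cen (eff (c x)) →
    ∃ μ, μ < L ∧ (∀ k, k < μ → ∀ j, dgt m m' H S k x j = 0) ∧ ∀ j, dgt m m' H S μ x j = 1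
  cen2 : ∀ x μ, (∀ k, k < μ → ∀ j, dgt m m' H S k x j = 0) → (∀ j, dgt m m' H S μ x j = 1) →
    cen (eff (c x)) ∧ ∀ j, (c x).rib j = some (dgt m m' H S (μ + 1) x)

theorem down_ind (P : ℕ → Prop) (L : ℕ) (hL : P L) (hs : ∀ k, k < L → P (k + 1) → P k) :
    P 0 := by
  have : ∀ n, n ≤ L → P (L - n) := by
    intro n
    induction n with
    | zero => intro _; simpa using hL
    | succ n ih =>
      intro hn
      apply hs _ (by omega)
      rw [show L - (n + 1) + 1 = L - n by omega]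
      exact ih (by omega)
  simpa using this L le_rfl

theorem exists_tower {m m' : V} (hm : ∀ i, 2 ≤ m i) (hm' : ∀ i, 2 ≤ m' i) {A : V → Cont}
    (hA : Valid m m' A) : ∃ (T : ℕ → V → Cont) (β : ℕ → V), T 0 = A ∧
      ∀ k U, T k U = Psi m' (dig (mk m m' k) (β k) U) (T (k + 1) (idx (mk m m' k) (β k) U)) := by
  obtain ⟨β0, A1, h1, h2⟩ := desub hm hm' hA
  have : ∀ a : {A // Valid m' m' A}, ∃ (β : V) (a' : {A // Valid m' m' A}),
      ∀ U, a.1 U = Psi m' (dig m' β U) (a'.1 (idx m' β U)) := by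
    intro a
    obtain ⟨β, A', h3, h4⟩ := desub hm' hm' a.2
    exact ⟨β, ⟨A', h3⟩, h4⟩
  choose b up hup using this
  let T1 : ℕ → {A // Valid m' m' A} := fun k => up^[k] ⟨A1, h1⟩
  refine ⟨fun k => match k with | 0 => A | k + 1 => (T1 k).1,
    fun k => match k with | 0 => β0 | k + 1 => b (T1 k), rfl, fun k U => ?_⟩
  cases k with
  | zero => exact h2 U
  | succ k =>
    have := hup (T1 k) U
    simp only [mk, Nat.succ_ne_zero, if_false, T1, Function.iterate_succ_apply'] at this ⊢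
    exact this

theorem exists_hier {m m' H : V} (hm : ∀ i, 2 ≤ m i) (hm' : ∀ i, 2 ≤ m' i) (hH : ∀ i, 0 < H i)
    {A : V → Cont} (hA : Valid m m' A) (o : V) :
    ∃ S : ℕ → V, S 0 = o ∧ Hier m m' H (fun x => A (idx H o x)) S ∧
      ∀ x L, inert (dgt m m' H S L x) → (A (idx H o x)).rib 0 ≠ none →
        ∃ i : ℕ, cen (eff (A (idx H o x - (i : ℤ) • ee 0))) := by
  obtain ⟨T, β, h0, hT⟩ := exists_tower hm hm' hA
  let S : ℕ → V := fun k => Nat.rec o (fun k s => s + β k * NN m m' H k) k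
  have hS : ∀ k, S (k + 1) = S k + β k * NN m m' H k := fun k => rfl
  have hmk : ∀ k i, 2 ≤ mk m m' k i := fun k i => by unfold mk; split_ifs; exacts [hm i, hm' i]
  have hN : ∀ k i, 0 < NN m m' H k i := by
    intro k i
    induction k with
    | zero => exact hH i
    | succ k ih => have := hmk k i; simp only [NN, Pi.mul_apply]; positivity
  have hq : ∀ k x j, idx (NN m m' H k) (S k) x j + β k j = (x j + S (k + 1) j) / NN m m' H k j := by
    intro k x j
    simp only [idx, hS, Pi.add_apply, Pi.mul_apply]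
    rw [← add_assoc, Int.add_mul_ediv_right _ _ (hN k j).ne']
  have hd : ∀ k x, dig (mk m m' k) (β k) (idx (NN m m' H k) (S k) x) = dgt m m' H S k x := by
    intro k x; funext j; simp only [dig, dgt, hq]
  have hi : ∀ k x, idx (mk m m' k) (β k) (idx (NN m m' H k) (S k) x) =
      idx (NN m m' H (k + 1)) (S (k + 1)) x := by
    intro k x; funext j
    show (idx (NN m m' H k) (S k) x j + β k j) / _ = _
    rw [hq, Int.ediv_ediv_of_nonneg (hN k j).le]
    rfl
  have hC : ∀ k x, T k (idx (NN m m' H k) (S k) x) =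
      Psi m' (dgt m m' H S k x) (T (k + 1) (idx (NN m m' H (k + 1)) (S (k + 1)) x)) := by
    intro k x; rw [hT, hd, hi]
  have hA0 : ∀ x, A (idx H o x) = T 0 (idx (NN m m' H 0) (S 0) x) := fun x => by rw [h0]; rfl
  refine ⟨S, rfl, ⟨?_, ?_, ?_, ?_⟩, ?_⟩
  · intro k j
    simp [hS]
  · intro R x x' L h1 h2
    simp only [hA0]
    apply down_ind (fun k => Rel R (T k (idx (NN m m' H k) (S k) x))
      (T k (idx (NN m m' H k) (S k) x'))) L
    · rw [hC, hC L x']; exact rel_inert (h1 L le_rfl) h2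
    · intro k hk ih
      rw [hC, hC k x']; exact rel_Psi (h1 k hk.le) ih
  · intro x L h1 h2
    simp only [hA0] at h2
    have := down_ind (fun k => cen (eff (T k (idx (NN m m' H k) (S k) x))) →
      ∃ μ, k ≤ μ ∧ μ < L ∧ (∀ l, k ≤ l → l < μ → ∀ j, dgt m m' H S l x j = 0) ∧
        ∀ j, dgt m m' H S μ x j = 1) L ?_ ?_ h2
    · obtain ⟨μ, _, h3, h4, h5⟩ := this
      exact ⟨μ, h3, fun k hk => h4 k (Nat.zero_le _) hk, h5⟩
    · intro hc
      rw [hC, Psi_eff_nz (inert_nz h1)] at hc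
      exact absurd (cen_lin hc 0) (inert_lin h1 0)
    · intro k hk ih hc
      rw [hC] at hc
      by_cases hz : ∀ j, dgt m m' H S k x j = 0
      · rw [Psi_eff_z hz] at hc
        obtain ⟨μ, h3, h4, h5, h6⟩ := ih hc
        refine ⟨μ, by omega, h4, fun l h7 h8 => ?_, h6⟩
        by_cases h9 : l = k
        · rw [h9]; exact hz
        · exact h5 l (by omega) h8
      · rw [Psi_eff_nz (by simpa using hz)] at hc
        exact ⟨k, le_rfl, hk, fun l h7 h8 => by omega, fun j => cl_eq_one.1 (hc j)⟩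
  · intro x μ h1 h2
    simp only [hA0]
    apply down_ind (fun k => cen (eff (T k (idx (NN m m' H k) (S k) x))) ∧
      ∀ j, (T k (idx (NN m m' H k) (S k) x)).rib j = some (dgt m m' H S (μ + 1) x)) μ
    · have hc : cen (ty (dgt m m' H S μ x)) := fun j => cl_eq_one.2 (h2 j)
      rw [hC, Psi_eff_nz ⟨0, by rw [h2]; decide⟩]
      refine ⟨hc, fun j => ?_⟩
      rw [Psi_r_lin (cen_lin hc j), if_neg (by rw [h2]; decide), hC]
      rfl
    · intro k hk ih
      rw [hC, Psi_eff_z (h1 k hk)]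
      exact ⟨ih.1, fun j => by rw [Psi_r_axs (axs_of_z (h1 k hk) j)]; exact ih.2 j⟩
  · intro x L h1
    have e0 : idx H o x = idx (NN m m' H 0) (S 0) x := rfl
    rw [e0, ← h0]
    apply down_ind (fun k => (T k (idx (NN m m' H k) (S k) x)).rib 0 ≠ none →
      ∃ i : ℕ, cen (eff (T k (idx (NN m m' H k) (S k) x - (i : ℤ) • ee 0)))) L
    · intro h2
      rw [hC, inert_r h1] at h2
      exact absurd rfl h2
    · intro k hk ih
      apply back_step (hmk k) (hT k)
      rw [hi]
      exact ih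

end Pool.Agent.Lib.MP_4b554f_an.All
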