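import Pool.Agent.Lib.MP_4b554f_an.All.Phys

/-!
Walls are periodic as soon as two parallel walls exist.
-/

set_option autoImplicit false
set_option linter.unusedSimpArgs false
set_option linter.unnecessarySeqFocus false
set_option linter.unusedVariables false
set_option linter.unusedSectionVars false

namespace Pool.Agent.Lib.MP_4b554f_an.All

variable [Dim]

theorem per_lemma (W : ℤ → Prop) {h : ℤ} (hh : 0 < h)
    (cover : ∀ a, ∃ i, 1 ≤ i ∧ i ≤ h ∧ W (a + i))
    (gap : ∀ a s, 1 ≤ s → W a → W (a + s) → h ≤ s) : ∃ o, ∀ a, W a ↔ (a + o) % h = 0 := by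
  obtain ⟨i0, _, _, h0⟩ := cover 0
  have up : ∀ a, W a → W (a + h) := by
    intro a ha
    obtain ⟨i, h1, h2, h3⟩ := cover a
    have := gap a i h1 ha h3
    rwa [show h = i by omega]
  have down : ∀ a, W a → W (a - h) := by
    intro a ha
    obtain ⟨i, h1, h2, h3⟩ := cover (a - h - 1)
    have := gap _ (h + 1 - i) (by omega) h3 (by rwa [show a - h - 1 + i + (h + 1 - i) = a by ring])
    rwa [show a - h = a - h - 1 + i by omega]
  have all : ∀ k : ℤ, W (0 + i0 + h * k) := by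
    intro k
    induction k using Int.induction_on with
    | zero => simpa using h0
    | succ n ih => have := up _ ih; rwa [mul_add, mul_one, ← add_assoc]
    | pred n ih => have := down _ ih; rwa [mul_sub, mul_one, ← add_sub_assoc]
  refine ⟨-i0, fun a => ?_⟩
  have h1 := Int.mul_ediv_add_emod (a + -i0) h
  have h2 := Int.emod_nonneg (a + -i0) hh.ne'
  have h3 := Int.emod_lt_of_pos (a + -i0) hh
  constructor
  · intro ha
    by_contra h4
    have := gap _ ((a + -i0) % h) (by omega) (all ((a + -i0) / h))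
      (by rwa [show 0 + i0 + h * ((a + -i0) / h) + (a + -i0) % h = a by linarith])
    omega
  · intro ha
    have := all ((a + -i0) / h)
    rwa [show 0 + i0 + h * ((a + -i0) / h) = a by linarith] at this

def Wl (M : V → Mn) (j : I) (a : ℤ) : Prop := (M (fun _ => a)).w j

theorem w_iff {M : V → Mn} (hM : GM M) (x : V) (j : I) : (M x).w j ↔ Wl M j (x j) := by
  apply Eq.to_iff
  apply const_of (fun x => (M x).w j) (fun k => k ≠ j)
  · intro k hk U
    exact propext ((hM U).wc j k hk).symm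
  · intro i hi
    have : i = j := by simpa using hi
    rw [this]

theorem upd_sub_one (j : I) (a c : ℤ) : upd j a c - 1 = upd j (a - 1) (c - 1) := by
  funext i; simp only [upd, Pi.sub_apply, Pi.one_apply]; split_ifs <;> rfl

theorem trace_true {M : V → Mn} (hM : GM M) {j : I} (hj : j ≠ 0) (α γ : ℤ) (h : Wl M j γ) :
    ∀ s : ℕ, (∀ i : ℤ, 1 ≤ i → i ≤ s → ¬ Wl M 0 (α + i)) → (M (upd j (γ + s) (α + s))).a j := by
  intro s
  induction s with
  | zero => intro _; exact (hM _).a1 j ((w_iff hM _ j).2 (by simpa [upd] using h))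
  | succ s ih =>
    intro h1
    by_cases h2 : (M (upd j (γ + (s + 1 : ℕ)) (α + (s + 1 : ℕ)))).w j
    · exact (hM _).a1 j h2
    · rw [(hM _).a3 j h2, upd_sub_one]
      · push_cast
        rw [show γ + (s + 1) - 1 = γ + s by ring, show α + (s + 1) - 1 = α + s by ring]
        exact ih (fun i h3 h4 => h1 i h3 (by push_cast; omega))
      · rw [w_iff hM]
        simpa [upd, hj.symm] using h1 (s + 1) (by omega) (by push_cast; omega)

theorem trace_false {M : V → Mn} (hM : GM M) {j : I} (hj : j ≠ 0) (α γ : ℤ) (h : Wl M 0 α) :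
    ∀ s : ℕ, (∀ i : ℤ, 0 ≤ i → i ≤ s → ¬ Wl M j (γ + i)) →
      ¬ (M (upd j (γ + s) (α + s))).a j := by
  intro s
  induction s with
  | zero =>
    intro h1
    apply (hM _).a2 j
    · rw [w_iff hM]; simpa [upd] using h1 0 le_rfl le_rfl
    · rw [w_iff hM]; simpa [upd, hj.symm] using h
  | succ s ih =>
    intro h1
    have h3 : ¬ (M (upd j (γ + (s + 1 : ℕ)) (α + (s + 1 : ℕ)))).w j := by
      rw [w_iff hM]; simpa [upd] using h1 (s + 1) (by omega) (by push_cast; omega)
    by_cases h2 : (M (upd j (γ + (s + 1 : ℕ)) (α + (s + 1 : ℕ)))).w 0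
    · exact (hM _).a2 j h3 h2
    · rw [(hM _).a3 j h3 h2, upd_sub_one]
      push_cast
      rw [show γ + (s + 1) - 1 = γ + s by ring, show α + (s + 1) - 1 = α + s by ring]
      exact ih (fun i h3 h4 => h1 i h3 (by push_cast; omega))

theorem cover1 {M : V → Mn} (hM : GM M) {j : I} (hj : j ≠ 0) {α s : ℤ} (hs : 1 ≤ s)
    (h : Wl M 0 α) (h' : Wl M 0 (α + s)) (γ : ℤ) : ∃ i, 1 ≤ i ∧ i ≤ s ∧ Wl M j (γ + i) := by
  by_contra hc
  push Not at hc
  apply trace_false hM hj α (γ + 1) h (s - 1).toNat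
  · intro i h1 h2
    rw [add_assoc]
    exact hc _ (by omega) (by omega)
  · apply (hM _).a4 j
    rw [w_iff hM]
    simp only [Pi.add_apply, upd, if_neg hj.symm, ee_self]
    rwa [show α + ((s - 1).toNat : ℤ) + 1 = α + s by omega]

theorem cover2 {M : V → Mn} (hM : GM M) {j : I} (hj : j ≠ 0) {γ s : ℤ} (hs : 1 ≤ s)
    (h : Wl M j γ) (h' : Wl M j (γ + s)) (α : ℤ) : ∃ i, 1 ≤ i ∧ i ≤ s ∧ Wl M 0 (α + i) := by
  by_contra hc
  push Not at hc
  refine (hM _).a5 j ?_ ?_ (trace_true hM hj α γ h (s - 1).toNat ?_)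
  · rw [w_iff hM]
    simp only [Pi.add_apply, upd, if_true, ee_self]
    rwa [show γ + ((s - 1).toNat : ℤ) + 1 = γ + s by omega]
  · rw [w_iff hM]
    simp only [Pi.add_apply, upd, if_neg hj.symm, ee_self]
    rw [show α + ((s - 1).toNat : ℤ) + 1 = α + s by omega]
    exact hc s hs le_rfl
  · intro i h1 h2
    exact hc i h1 (by omega)

def Two (M : V → Mn) : Prop := ∃ j a s, 1 ≤ s ∧ Wl M j a ∧ Wl M j (a + s)

theorem walls_per {M : V → Mn} (hM : GM M) (h2 : Two M) :
    ∃ (h : ℤ) (o : V), 2 ≤ h ∧ ∀ x j, (M x).w j ↔ (x j + o j) % h = 0 := by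
  classical
  have h0 : ∃ s : ℕ, 1 ≤ s ∧ ∃ a, Wl M 0 a ∧ Wl M 0 (a + s) := by
    obtain ⟨j, a, s, h1, h3, h4⟩ := h2
    by_cases hj : j = 0
    · subst hj
      exact ⟨s.toNat, by omega, a, h3, by rwa [Int.toNat_of_nonneg (by omega)]⟩
    · obtain ⟨i, _, _, h5⟩ := cover2 hM hj h1 h3 h4 0
      obtain ⟨i', h6, _, h7⟩ := cover2 hM hj h1 h3 h4 (0 + i)
      exact ⟨i'.toNat, by omega, _, h5, by rwa [Int.toNat_of_nonneg (by omega)]⟩
  obtain ⟨h1, α, h3, h4⟩ := Nat.find_spec h0
  have hmin : ∀ a s, 1 ≤ s → Wl M 0 a → Wl M 0 (a + s) → (Nat.find h0 : ℤ) ≤ s := by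
    intro a s h5 h6 h7
    have := Nat.find_min' h0 (m := s.toNat)
      ⟨by omega, a, h6, by rwa [Int.toNat_of_nonneg (by omega)]⟩
    omega
  generalize Nat.find h0 = h at *
  have hh : (1 : ℤ) ≤ h := by omega
  have hj : ∀ j, j ≠ 0 → ∃ o, ∀ a, Wl M j a ↔ (a + o) % h = 0 := by
    intro j hj
    apply per_lemma _ hh (cover1 hM hj hh h3 h4)
    intro a s h5 h6 h7
    obtain ⟨i, h8, h9, h10⟩ := cover2 hM hj h5 h6 h7 α
    have := hmin α i h8 h3 h10
    omega
  have hall : ∀ j, ∃ o, ∀ a, Wl M j a ↔ (a + o) % h = 0 := by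
    intro j
    by_cases h5 : j = 0
    · subst h5
      obtain ⟨o, ho⟩ := hj 1 one_ne
      exact per_lemma _ hh (cover2 hM (j := 1) (γ := -o) one_ne hh (by simp [ho])
        (by simp [ho])) hmin
    · exact hj j h5
  choose o ho using hall
  refine ⟨h, o, ?_, fun x j => by rw [w_iff hM, ho]⟩
  by_contra h5
  have h6 : (h : ℤ) = 1 := by omega
  apply (hM 0).w2
  simp only [w_iff hM, ho, h6, Int.emod_one, and_self]

theorem ray_uniq {j : I} {w u : V → Prop} {B : BV → BC} {Y : V → BV → Prop}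
    (hB : VB B) (hY : Ray j w B u Y) (x : V) (D : ℤ) (hD : 1 ≤ D) (h1 : u x)
    (h2 : u (x + D • ee j)) (h3 : ∀ i : ℤ, 1 ≤ i → i ≤ D → ¬ w (x + i • ee j)) : False := by
  obtain ⟨y, h4, h5⟩ := long_VB hB (D - 1).toNat
  have key : ∀ i : ℕ, i ≤ (D - 1).toNat → Y (x + ((i : ℤ) + 1) • ee j) (y + (i : ℤ) • e0) := by
    intro i
    induction i with
    | zero =>
      intro hi
      rw [(hY _ _).1]
      refine ⟨(h5 0 hi).1, h3 _ (by simp) (by simpa using hD), Or.inl ⟨by simpa using h4, ?_⟩⟩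
      simpa using h1
    | succ i ih =>
      intro hi
      rw [(hY _ _).1]
      refine ⟨(h5 _ hi).1, h3 _ (by omega) (by omega), Or.inr ⟨(h5 _ hi).2 (by omega), ?_⟩⟩
      have := ih (by omega)
      rwa [show x + (((i + 1 : ℕ) : ℤ) + 1) • ee j - ee j = x + ((i : ℤ) + 1) • ee j by
          push_cast; rw [add_smul _ 1]; simp; abel,
        show y + ((i + 1 : ℕ) : ℤ) • e0 - e0 = y + (i : ℤ) • e0 by
          push_cast; rw [add_smul _ 1]; simp; abel]
  have := key _ le_rfl
  rw [show (((D - 1).toNat : ℕ) : ℤ) + 1 = D by omega] at this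
  exact (hY _ _).2 ⟨this, h2⟩

theorem pick (P : ℤ → Prop) (h : ℤ) (hh : 0 ≤ h)
    (uniq : ∀ r r', 0 ≤ r → r < r' → r' < h → P r → ¬ P r') :
    ∃ L, 0 ≤ L ∧ L ≤ h ∧ ∀ r, 0 ≤ r → r < h → (P r ↔ L = r) := by
  by_cases h1 : ∃ r, 0 ≤ r ∧ r < h ∧ P r
  · obtain ⟨r, h2, h3, h4⟩ := h1
    refine ⟨r, h2, h3.le, fun r' h5 h6 => ⟨fun h7 => ?_, fun h7 => h7 ▸ h4⟩⟩
    rcases lt_trichotomy r r' with h8 | h8 | h8
    · exact absurd h7 (uniq r r' h2 h8 h6 h4)
    · exact h8
    · exact absurd h4 (uniq r' r h5 h8 h3 h7)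
  · exact ⟨h, hh, le_rfl, fun r h2 h3 => ⟨fun h4 => absurd ⟨r, h2, h3, h4⟩ h1, fun h4 => by omega⟩⟩

theorem box_down {α : Type*} {h : ℤ} (hh : 0 < h) (o : V) (g : V → α) (j : I)
    (hg : ∀ x, ¬ ((x j + o j) % h = 0 ∧ ((x j + o j) / h) % mm 1 j = 0) → g (x - ee j) = g x)
    (x : V) : ∀ n : ℕ, idx (HH h) o (x - (n : ℤ) • ee j) j = idx (HH h) o x j →
      g (x - (n : ℤ) • ee j) = g x := by
  intro n
  induction n with
  | zero => simp
  | succ n ih =>
    intro h1
    have e : x - ((n + 1 : ℕ) : ℤ) • ee j = x - (n : ℤ) • ee j - ee j := by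
      push_cast; rw [add_smul]; simp; abel
    rw [e] at h1 ⊢
    have h2 : idx (HH h) o (x - (n : ℤ) • ee j - ee j) j ≤ idx (HH h) o (x - (n : ℤ) • ee j) j :=
      Int.ediv_le_ediv (HH_pos hh j) (by simp)
    have h3 : idx (HH h) o (x - (n : ℤ) • ee j) j ≤ idx (HH h) o x j :=
      Int.ediv_le_ediv (HH_pos hh j) (by simp)
    rw [hg, ih (by omega)]
    intro hb
    rw [idx_out hh hb] at h1
    simp only [Pi.sub_apply, ee_self] at h1
    omega

theorem walk {α : Type*} (g : V → α) (x x' : V)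
    (key : ∀ k (W : V), (∀ i, W i = x i ∨ W i = x' i) → W k = x k →
      g (W + (x' k - x k) • ee k) = g W) : g x = g x' := by
  have h : ∀ s : Finset I, g (fun i => if i ∈ s then x' i else x i) = g x := by
    intro s
    induction s using Finset.induction_on with
    | empty => simp
    | insert k s hk ih =>
      rw [← ih, ← key k (fun i => if i ∈ s then x' i else x i) (fun i => by split_ifs <;> simp)
        (by simp [hk])]
      congr 1
      funext i
      by_cases hi : i = k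
      · subst hi; simp [hk]
      · simp [hi, ee_ne hi]
  simpa using (h Finset.univ).symm

theorem box_const {α : Type*} {h : ℤ} (hh : 0 < h) (o : V) (g : V → α) (p : I → Prop)
    (hg : ∀ j, p j → ∀ x, ¬ ((x j + o j) % h = 0 ∧ ((x j + o j) / h) % mm 1 j = 0) →
      g (x - ee j) = g x)
    (x x' : V) (h1 : idx (HH h) o x = idx (HH h) o x') (h2 : ∀ j, ¬ p j → x j = x' j) :
    g x = g x' := by
  have key : ∀ k W, W k = x k → g (W + (x' k - x k) • ee k) = g W := by
    intro k W hW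
    by_cases hk : p k
    · have h3 := congrFun h1 k
      rcases le_total (x k) (x' k) with h4 | h4
      · have := box_down hh o g k (hg k hk) (W + (x' k - x k) • ee k) (x' k - x k).toNat
        rw [Int.toNat_of_nonneg (by omega), add_sub_cancel_right] at this
        refine (this ?_).symm
        simpa [idx, hW] using h3
      · have := box_down hh o g k (hg k hk) W (x k - x' k).toNat
        rw [Int.toNat_of_nonneg (by omega), sub_eq_add_neg W, ← neg_smul, neg_sub] at this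
        refine this ?_
        simpa [idx, hW] using h3.symm
    · rw [h2 k hk]; simp
  exact walk g x x' (fun k W _ hW => key k W hW)

end Pool.Agent.Lib.MP_4b554f_an.All
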